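import Mathlib

set_option autoImplicit false
set_option linter.unusedSectionVars false

namespace Pool.Agent.Helper648.Blow

open scoped InnerProductSpace
open Filter Topology

variable {E : Type*} [NormedAddCommGroup E] [InnerProductSpace ℝ E] [FiniteDimensional ℝ E]

section resolvent

variable {Ψ : E → ℝ} {v : E → E} {M : ℝ}
  (hsub : ∀ x x', Ψ x + ⟪v x, x' - x⟫_ℝ ≤ Ψ x') (hM : ∀ x, ‖v x‖ ≤ M)
include hsub hM

theorem lip (x x' : E) : |Ψ x' - Ψ x| ≤ M * ‖x' - x‖ := by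
  have h1 := hsub x x'
  have h2 := hsub x' x
  have h3 : |⟪v x, x' - x⟫_ℝ| ≤ M * ‖x' - x‖ :=
    (abs_real_inner_le_norm _ _).trans (mul_le_mul_of_nonneg_right (hM x) (norm_nonneg _))
  have h4 : |⟪v x', x - x'⟫_ℝ| ≤ M * ‖x - x'‖ :=
    (abs_real_inner_le_norm _ _).trans (mul_le_mul_of_nonneg_right (hM x') (norm_nonneg _))
  rw [norm_sub_rev x x'] at h4
  rw [abs_le] at *
  constructor <;> linarith

theorem cont : Continuous Ψ := by
  have hM0 : 0 ≤ M := (norm_nonneg _).trans (hM 0)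
  apply LipschitzWith.continuous (K := M.toNNReal)
  apply LipschitzWith.of_dist_le_mul
  intro x y
  rw [Real.coe_toNNReal _ hM0, Real.dist_eq, dist_eq_norm]
  exact lip hsub hM y x

theorem convex_ineq (x x' : E) (l : ℝ) (hl0 : 0 ≤ l) (hl1 : l ≤ 1) :
    Ψ (x + l • (x' - x)) ≤ (1 - l) * Ψ x + l * Ψ x' := by
  set z := x + l • (x' - x) with hz
  have h1 := hsub z x
  have h2 := hsub z x'
  have e1 : x - z = -(l • (x' - x)) := by rw [hz]; abel
  have e2 : x' - z = (1 - l) • (x' - x) := by rw [hz, sub_smul, one_smul]; abel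
  rw [e1, inner_neg_right, inner_smul_right] at h1
  rw [e2, inner_smul_right] at h2
  have h3 := mul_le_mul_of_nonneg_left h1 (by linarith : 0 ≤ 1 - l)
  have h4 := mul_le_mul_of_nonneg_left h2 hl0
  nlinarith

theorem exists_min (y : E) : ∃ x, ∀ x', Ψ x + ‖x‖^2/2 - ⟪x, y⟫_ℝ ≤ Ψ x' + ‖x'‖^2/2 - ⟪x', y⟫_ℝ := by
  have hM0 : 0 ≤ M := (norm_nonneg _).trans (hM 0)
  set R : ℝ := 2 * (M + ‖y‖) + 1 with hR
  have hR0 : 0 < R := by positivity
  have hcΨ := cont hsub hM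
  have hcont : Continuous (fun x : E => Ψ x + ‖x‖^2/2 - ⟪x, y⟫_ℝ) := by fun_prop
  obtain ⟨x, hx, hxmin⟩ := (isCompact_closedBall (0:E) R).exists_isMinOn
    ⟨0, Metric.mem_closedBall_self hR0.le⟩ hcont.continuousOn
  refine ⟨x, fun x' => ?_⟩
  by_cases hx' : x' ∈ Metric.closedBall (0:E) R
  · exact hxmin hx'
  · have h0 := hxmin (Metric.mem_closedBall_self hR0.le : (0:E) ∈ Metric.closedBall (0:E) R)
    simp only [Set.mem_ofPred_eq, norm_zero, inner_zero_left] at h0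
    refine h0.trans ?_
    rw [mem_closedBall_zero_iff, not_le] at hx'
    have h1 := lip hsub hM 0 x'
    rw [sub_zero, abs_le] at h1
    have h2 : |⟪x', y⟫_ℝ| ≤ ‖x'‖ * ‖y‖ := abs_real_inner_le_norm _ _
    rw [abs_le] at h2
    have h3 : (M + ‖y‖) * ‖x'‖ ≤ ‖x'‖^2/2 := by
      have : 2 * (M + ‖y‖) ≤ ‖x'‖ := by linarith
      nlinarith [norm_nonneg x']
    nlinarith [h1.1, h2.2]

theorem exists_resolvent : ∃ f : E → E, ∀ y x', Ψ (f y) + ⟪y - f y, x' - f y⟫_ℝ ≤ Ψ x' := by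
  choose f hf using exists_min hsub hM
  refine ⟨f, fun y x' => ?_⟩
  set x := f y with hx
  -- for every l in (0,1]
  have key : ∀ l : ℝ, 0 < l → l ≤ 1 → Ψ x + ⟪y - x, x' - x⟫_ℝ - l * ‖x' - x‖^2/2 ≤ Ψ x' := by
    intro l hl0 hl1
    have h1 := hf y (x + l • (x' - x))
    rw [← hx] at h1
    have h2 := convex_ineq hsub hM x x' l hl0.le hl1
    have e1 : ‖x + l • (x' - x)‖^2 = ‖x‖^2 + 2 * l * ⟪x, x' - x⟫_ℝ + l^2 * ‖x' - x‖^2 := by
      rw [norm_add_sq_real, inner_smul_right, norm_smul, mul_pow, Real.norm_eq_abs, sq_abs]; ring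
    have e2 : ⟪x + l • (x' - x), y⟫_ℝ = ⟪x, y⟫_ℝ + l * ⟪y, x' - x⟫_ℝ := by
      rw [inner_add_left, real_inner_smul_left, real_inner_comm y (x' - x)]
    rw [e1, e2] at h1
    have h3 : 0 ≤ l * (Ψ x' - Ψ x - ⟪y - x, x' - x⟫_ℝ + l * ‖x' - x‖^2/2) := by
      rw [inner_sub_left]
      nlinarith
    have h4 : 0 ≤ Ψ x' - Ψ x - ⟪y - x, x' - x⟫_ℝ + l * ‖x' - x‖^2/2 :=
      nonneg_of_mul_nonneg_right h3 hl0
    linarith
  -- let l tend to zero
  have hlim : Tendsto (fun l : ℝ => Ψ x + ⟪y - x, x' - x⟫_ℝ - l * ‖x' - x‖^2/2) (𝓝[>] 0)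
      (𝓝 (Ψ x + ⟪y - x, x' - x⟫_ℝ - 0 * ‖x' - x‖^2/2)) := by
    apply Tendsto.mono_left _ nhdsWithin_le_nhds
    apply Continuous.tendsto
    fun_prop
  have : Ψ x + ⟪y - x, x' - x⟫_ℝ - 0 * ‖x' - x‖^2/2 ≤ Ψ x' := by
    apply le_of_tendsto hlim
    have : Set.Ioc (0:ℝ) 1 ∈ 𝓝[>] (0:ℝ) := Ioc_mem_nhdsGT one_pos
    filter_upwards [this] with l hl
    exact key l hl.1 hl.2
  simpa using this

end resolvent

section props

variable {Ψ : E → ℝ} {v : E → E} {M : ℝ}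
  (hsub : ∀ x x', Ψ x + ⟪v x, x' - x⟫_ℝ ≤ Ψ x') (hM : ∀ x, ‖v x‖ ≤ M)
  {f : E → E} (hf : ∀ y x', Ψ (f y) + ⟪y - f y, x' - f y⟫_ℝ ≤ Ψ x')
include hsub hM hf

theorem f_lip (y y' : E) : ‖f y - f y'‖ ≤ ‖y - y'‖ := by
  have h1 := hf y (f y')
  have h2 := hf y' (f y)
  have h3 : ‖f y - f y'‖^2 ≤ ⟪y - y', f y - f y'⟫_ℝ := by
    have e1 : ⟪y - f y, f y' - f y⟫_ℝ = -⟪y, f y - f y'⟫_ℝ + ⟪f y, f y - f y'⟫_ℝ := by
      rw [← neg_sub (f y) (f y'), inner_neg_right, inner_sub_left]; ring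
    have e2 : ⟪y' - f y', f y - f y'⟫_ℝ = ⟪y', f y - f y'⟫_ℝ - ⟪f y', f y - f y'⟫_ℝ := by
      rw [inner_sub_left]
    have e3 : ‖f y - f y'‖^2 = ⟪f y, f y - f y'⟫_ℝ - ⟪f y', f y - f y'⟫_ℝ := by
      rw [← inner_sub_left, real_inner_self_eq_norm_sq]
    rw [inner_sub_left, e3]
    linarith
  have h4 : ⟪y - y', f y - f y'⟫_ℝ ≤ ‖y - y'‖ * ‖f y - f y'‖ := real_inner_le_norm _ _
  by_cases h0 : ‖f y - f y'‖ = 0
  · rw [h0]; exact norm_nonneg _
  · have hpos : 0 < ‖f y - f y'‖ := lt_of_le_of_ne (norm_nonneg _) (Ne.symm h0)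
    have : ‖f y - f y'‖ * ‖f y - f y'‖ ≤ ‖y - y'‖ * ‖f y - f y'‖ := by nlinarith
    exact le_of_mul_le_mul_right this hpos

theorem f_cont : Continuous f := by
  apply LipschitzWith.continuous (K := 1)
  apply LipschitzWith.of_dist_le_mul
  intro x y
  rw [dist_eq_norm, dist_eq_norm]
  simpa using f_lip hsub hM hf x y

theorem f_near (y : E) : ‖y - f y‖ ≤ M := by
  have h1 := hf y (f y + (y - f y))
  have h2 := lip hsub hM (f y) (f y + (y - f y))
  rw [add_sub_cancel_left] at h1 h2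
  rw [abs_le] at h2
  rw [real_inner_self_eq_norm_sq] at h1
  have h3 : ‖y - f y‖^2 ≤ M * ‖y - f y‖ := by linarith
  by_cases h0 : ‖y - f y‖ = 0
  · rw [h0]; exact (norm_nonneg _).trans (hM 0)
  · have hpos : 0 < ‖y - f y‖ := lt_of_le_of_ne (norm_nonneg _) (Ne.symm h0)
    have : ‖y - f y‖ * ‖y - f y‖ ≤ M * ‖y - f y‖ := by nlinarith
    exact le_of_mul_le_mul_right this hpos

/-- the resolvent inverts `x + v x` -/
theorem f_inv (x : E) : f (x + v x) = x := by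
  have h1 := hf (x + v x) x
  have h2 := hsub x (f (x + v x))
  set z := f (x + v x) with hz
  have e1 : ⟪x + v x - z, x - z⟫_ℝ = ‖x - z‖^2 + ⟪v x, x - z⟫_ℝ := by
    have : x + v x - z = (x - z) + v x := by abel
    rw [this, inner_add_left, real_inner_self_eq_norm_sq]
  have e2 : ⟪v x, z - x⟫_ℝ = -⟪v x, x - z⟫_ℝ := by rw [← neg_sub x z, inner_neg_right]
  rw [e1] at h1
  rw [e2] at h2
  have h3 : ‖x - z‖^2 ≤ 0 := by linarith
  have h4 : ‖x - z‖ = 0 := pow_eq_zero_iff (two_ne_zero) |>.1 (le_antisymm h3 (sq_nonneg _))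
  exact (sub_eq_zero.1 (norm_eq_zero.1 h4)).symm

/-- uniqueness of preimages at continuity points of `v` -/
theorem f_unique {y x : E} (hy : f y = x) (hx : ContinuousAt v x) : y = x + v x := by
  have h1 : ∀ w : E, 0 ≤ ⟪v x - (y - x), w⟫_ℝ := by
    intro w
    have h2 : ∀ t : ℝ, 0 < t → 0 ≤ ⟪v (x + t • w) - (y - x), w⟫_ℝ := by
      intro t ht
      have a1 := hf y (x + t • w)
      have a2 := hsub (x + t • w) x
      rw [hy] at a1
      rw [add_sub_cancel_left, inner_smul_right] at a1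
      have e1 : x - (x + t • w) = -(t • w) := by abel
      rw [e1, inner_neg_right, inner_smul_right] at a2
      have a3 : 0 ≤ t * ⟪v (x + t • w) - (y - x), w⟫_ℝ := by
        rw [inner_sub_left]; nlinarith
      exact nonneg_of_mul_nonneg_right a3 ht
    have hlim : Tendsto (fun t : ℝ => ⟪v (x + t • w) - (y - x), w⟫_ℝ) (𝓝[>] 0)
        (𝓝 ⟪v x - (y - x), w⟫_ℝ) := by
      apply Tendsto.mono_left _ nhdsWithin_le_nhds
      have hc : ContinuousAt (fun t : ℝ => x + t • w) 0 := by fun_prop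
      have hc2 : ContinuousAt (fun t : ℝ => v (x + t • w)) 0 := by
        apply ContinuousAt.comp (g := v) (f := fun t : ℝ => x + t • w)
        · simpa using hx
        · exact hc
      have hc3 : ContinuousAt (fun t : ℝ => ⟪v (x + t • w) - (y - x), w⟫_ℝ) 0 := by
        apply ContinuousAt.inner
        · exact hc2.sub continuousAt_const
        · exact continuousAt_const
      have := hc3.tendsto
      simpa using this
    apply ge_of_tendsto hlim
    filter_upwards [self_mem_nhdsWithin] with t ht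
    exact h2 t ht
  have h2 := h1 (-(v x - (y - x)))
  rw [inner_neg_right, real_inner_self_eq_norm_sq] at h2
  have h3 : ‖v x - (y - x)‖^2 ≤ 0 := by linarith
  have h4 : ‖v x - (y - x)‖ = 0 := pow_eq_zero_iff (two_ne_zero) |>.1 (le_antisymm h3 (sq_nonneg _))
  have h5 := sub_eq_zero.1 (norm_eq_zero.1 h4)
  rw [h5]; abel

end props

end Pool.Agent.Helper648.Blow
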