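import Mathlib

set_option autoImplicit false

namespace Pool.Agent.Helper648.Square

/-- weight of an ordered pair of labels -/
def w (p q : Fin 3) : ℤ :=
  if p = 0 ∧ q = 1 then 1 else if p = 1 ∧ q = 0 then -1 else 0

theorem w_cell : ∀ a b c d : Fin 3,
    ¬ ((a = 0 ∨ b = 0 ∨ c = 0 ∨ d = 0) ∧ (a = 1 ∨ b = 1 ∨ c = 1 ∨ d = 1) ∧
      (a = 2 ∨ b = 2 ∨ c = 2 ∨ d = 2)) →
    w a b + w b d - w c d - w a c = 0 := by
  decide

/-- combinatorial Sperner lemma for a labelled square grid -/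
theorem exists_full_cell (n : ℕ) (l : ℕ → ℕ → Fin 3)
    (hbot : ∀ i, i ≤ n → l i 0 ≠ 2) (h00 : l 0 0 = 0) (hn0 : l n 0 = 1)
    (hright : ∀ j, j ≤ n → l n j ≠ 0) (hleft : ∀ j, j ≤ n → l 0 j ≠ 1)
    (htop : ∀ i, i ≤ n → l i n = 2) :
    ∃ i j, i < n ∧ j < n ∧
      (l i j = 0 ∨ l (i+1) j = 0 ∨ l i (j+1) = 0 ∨ l (i+1) (j+1) = 0) ∧
      (l i j = 1 ∨ l (i+1) j = 1 ∨ l i (j+1) = 1 ∨ l (i+1) (j+1) = 1) ∧
      (l i j = 2 ∨ l (i+1) j = 2 ∨ l i (j+1) = 2 ∨ l (i+1) (j+1) = 2) := by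
  by_contra hcon
  have hcell : ∀ i j, i < n → j < n →
      w (l i j) (l (i+1) j) + w (l (i+1) j) (l (i+1) (j+1))
        - w (l i (j+1)) (l (i+1) (j+1)) - w (l i j) (l i (j+1)) = 0 := by
    intro i j hi hj
    apply w_cell
    intro h
    exact hcon ⟨i, j, hi, hj, h⟩
  have hsum : ∑ i ∈ Finset.range n, ∑ j ∈ Finset.range n,
      (w (l i j) (l (i+1) j) + w (l (i+1) j) (l (i+1) (j+1))
        - w (l i (j+1)) (l (i+1) (j+1)) - w (l i j) (l i (j+1))) = 0 := by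
    apply Finset.sum_eq_zero
    intro i hi
    apply Finset.sum_eq_zero
    intro j hj
    exact hcell i j (Finset.mem_range.1 hi) (Finset.mem_range.1 hj)
  have h1 : ∑ i ∈ Finset.range n, ∑ j ∈ Finset.range n,
      (w (l i j) (l (i+1) j) + w (l (i+1) j) (l (i+1) (j+1))
        - w (l i (j+1)) (l (i+1) (j+1)) - w (l i j) (l i (j+1)))
      = (∑ i ∈ Finset.range n, ∑ j ∈ Finset.range n,
          (w (l i j) (l (i+1) j) - w (l i (j+1)) (l (i+1) (j+1))))
        + ∑ j ∈ Finset.range n, ∑ i ∈ Finset.range n,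
          (w (l (i+1) j) (l (i+1) (j+1)) - w (l i j) (l i (j+1))) := by
    rw [Finset.sum_comm (s := Finset.range n) (t := Finset.range n)
      (f := fun j i => (w (l (i+1) j) (l (i+1) (j+1)) - w (l i j) (l i (j+1)))),
      ← Finset.sum_add_distrib]
    apply Finset.sum_congr rfl
    intro i _
    rw [← Finset.sum_add_distrib]
    apply Finset.sum_congr rfl
    intro j _
    ring
  have h2 : ∀ i, ∑ j ∈ Finset.range n,
      (w (l i j) (l (i+1) j) - w (l i (j+1)) (l (i+1) (j+1)))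
      = w (l i 0) (l (i+1) 0) - w (l i n) (l (i+1) n) := by
    intro i
    rw [Finset.sum_range_sub' (fun j => w (l i j) (l (i+1) j))]
  have h3 : ∀ j, ∑ i ∈ Finset.range n,
      (w (l (i+1) j) (l (i+1) (j+1)) - w (l i j) (l i (j+1)))
      = w (l n j) (l n (j+1)) - w (l 0 j) (l 0 (j+1)) := by
    intro j
    rw [Finset.sum_range_sub (fun i => w (l i j) (l i (j+1)))]
  rw [h1] at hsum
  simp only [h2, h3] at hsum
  have h4 : ∑ j ∈ Finset.range n, (w (l n j) (l n (j+1)) - w (l 0 j) (l 0 (j+1))) = 0 := by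
    apply Finset.sum_eq_zero
    intro j hj
    have hj' := Finset.mem_range.1 hj
    have a1 := hright j hj'.le
    have a2 := hright (j+1) hj'
    have a3 := hleft j hj'.le
    have a4 := hleft (j+1) hj'
    have e1 : ∀ p q : Fin 3, p ≠ 0 → q ≠ 0 → w p q = 0 := by decide
    have e2 : ∀ p q : Fin 3, p ≠ 1 → q ≠ 1 → w p q = 0 := by decide
    rw [e1 _ _ a1 a2, e2 _ _ a3 a4]; simp
  have h5 : ∑ i ∈ Finset.range n, (w (l i 0) (l (i+1) 0) - w (l i n) (l (i+1) n)) = 1 := by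
    let b : Fin 3 → ℤ := fun p => if p = 1 then 1 else 0
    have e3 : ∀ p q : Fin 3, p ≠ 2 → q ≠ 2 →
        w p q = (if q = 1 then 1 else 0) - (if p = 1 then 1 else 0) := by decide
    have e4 : w 2 2 = 0 := by decide
    have : ∀ i ∈ Finset.range n, (w (l i 0) (l (i+1) 0) - w (l i n) (l (i+1) n))
        = b (l (i+1) 0) - b (l i 0) := by
      intro i hi
      have hi' := Finset.mem_range.1 hi
      rw [htop i hi'.le, htop (i+1) hi', e4, e3 _ _ (hbot i hi'.le) (hbot (i+1) hi')]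
      simp [b]
    rw [Finset.sum_congr rfl this, Finset.sum_range_sub (fun i => b (l i 0))]
    simp [b, h00, hn0]
  rw [h4, h5] at hsum
  norm_num at hsum

/-- Lebesgue covering theorem for the square (order at most two is impossible
for covers whose members do not meet opposite sides). -/
theorem no_order_two {E : Type*} [TopologicalSpace E] (κ : ℝ × ℝ → E)
    (hκ : Continuous κ) (𝒱 : Finset (Set E)) (hopen : ∀ V ∈ 𝒱, IsOpen V)
    (hcov : ∀ p ∈ Set.Icc (0:ℝ) 1 ×ˢ Set.Icc (0:ℝ) 1, ∃ V ∈ 𝒱, κ p ∈ V)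
    (hlr : ∀ V ∈ 𝒱, ∀ s ∈ Set.Icc (0:ℝ) 1, ∀ t ∈ Set.Icc (0:ℝ) 1,
      κ (0, s) ∈ V → κ (1, t) ∈ V → False)
    (hbt : ∀ V ∈ 𝒱, ∀ s ∈ Set.Icc (0:ℝ) 1, ∀ t ∈ Set.Icc (0:ℝ) 1,
      κ (s, 0) ∈ V → κ (t, 1) ∈ V → False)
    (hord : ∀ p ∈ Set.Icc (0:ℝ) 1 ×ˢ Set.Icc (0:ℝ) 1,
      {V | V ∈ 𝒱 ∧ κ p ∈ V}.ncard ≤ 2) : False := by
  classical
  have hK : IsCompact (Set.Icc (0:ℝ) 1 ×ˢ Set.Icc (0:ℝ) 1) := isCompact_Icc.prod isCompact_Icc
  obtain ⟨δ, hδ, hleb⟩ := lebesgue_number_lemma_of_metric (ι := {V // V ∈ 𝒱})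
    (c := fun V => κ ⁻¹' V.1) hK (fun V => (hopen V.1 V.2).preimage hκ) (by
      intro p hp
      obtain ⟨V, hV, hpV⟩ := hcov p hp
      exact Set.mem_iUnion.2 ⟨⟨V, hV⟩, hpV⟩)
  obtain ⟨n, hn⟩ := exists_nat_gt (1/δ)
  have hn0 : (0:ℝ) < n := lt_trans (by positivity) hn
  have hn0' : 0 < n := by exact_mod_cast hn0
  have hnδ : 1 / (n:ℝ) < δ := by
    rw [div_lt_iff₀ hn0]; rw [div_lt_iff₀ hδ] at hn; linarith
  let P : ℕ → ℕ → ℝ × ℝ := fun i j => ((i:ℝ)/n, (j:ℝ)/n)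
  have hP : ∀ i j, i ≤ n → j ≤ n → P i j ∈ Set.Icc (0:ℝ) 1 ×ˢ Set.Icc (0:ℝ) 1 := by
    intro i j hi hj
    have hi' : (i:ℝ) ≤ n := by exact_mod_cast hi
    have hj' : (j:ℝ) ≤ n := by exact_mod_cast hj
    refine ⟨⟨by positivity, ?_⟩, ⟨by positivity, ?_⟩⟩
    · exact (div_le_one hn0).2 hi'
    · exact (div_le_one hn0).2 hj'
  have hch : ∀ p : ℝ × ℝ, ∃ V : Set E, p ∈ Set.Icc (0:ℝ) 1 ×ˢ Set.Icc (0:ℝ) 1 →
      V ∈ 𝒱 ∧ Metric.ball p δ ⊆ κ ⁻¹' V := by
    intro p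
    by_cases hp : p ∈ Set.Icc (0:ℝ) 1 ×ˢ Set.Icc (0:ℝ) 1
    · obtain ⟨V, hV⟩ := hleb p hp
      exact ⟨V.1, fun _ => ⟨V.2, hV⟩⟩
    · exact ⟨∅, fun h => absurd h hp⟩
  choose F hF using hch
  let col : Set E → Fin 3 := fun V =>
    if ∃ t ∈ Set.Icc (0:ℝ) 1, κ (t, 1) ∈ V then 2
    else if ∃ t ∈ Set.Icc (0:ℝ) 1, κ (1, t) ∈ V then 1 else 0
  have hself : ∀ i j, i ≤ n → j ≤ n → κ (P i j) ∈ F (P i j) := by
    intro i j hi hj
    exact (hF _ (hP i j hi hj)).2 (Metric.mem_ball_self hδ)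
  have hunit : ∀ i, i ≤ n → ((i:ℝ)/n) ∈ Set.Icc (0:ℝ) 1 := by
    intro i hi
    exact (hP i i hi hi).1
  have hnn : ((n:ℝ)/n) = 1 := div_self hn0.ne'
  obtain ⟨i, j, hi, hj, c0, c1, c2⟩ := exists_full_cell n (fun i j => col (F (P i j)))
    (by
      intro i hi
      have h1 := hself i 0 hi (Nat.zero_le _)
      have h2 := (hF _ (hP i 0 hi (Nat.zero_le _))).1
      simp only [col]
      rw [if_neg]
      · split_ifs <;> decide
      · rintro ⟨t, ht, htV⟩
        exact hbt _ h2 _ (hunit i hi) t ht (by simpa [P] using h1) htV)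
    (by
      have h1 := hself 0 0 (Nat.zero_le _) (Nat.zero_le _)
      have h2 := (hF _ (hP 0 0 (Nat.zero_le _) (Nat.zero_le _))).1
      simp only [col]
      rw [if_neg, if_neg]
      · rintro ⟨t, ht, htV⟩
        exact hlr _ h2 0 (by simp) t ht (by simpa [P] using h1) htV
      · rintro ⟨t, ht, htV⟩
        exact hbt _ h2 0 (by simp) t ht (by simpa [P] using h1) htV)
    (by
      have h1 := hself n 0 le_rfl (Nat.zero_le _)
      have h2 := (hF _ (hP n 0 le_rfl (Nat.zero_le _))).1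
      simp only [col]
      rw [if_neg, if_pos]
      · refine ⟨0, by simp, ?_⟩
        have : P n 0 = (1, 0) := by simp [P, hnn]
        rw [this] at h1 ⊢
        exact h1
      · rintro ⟨t, ht, htV⟩
        refine hbt _ h2 1 (by simp) t ht ?_ htV
        have : P n 0 = (1, 0) := by simp [P, hnn]
        rw [this] at h1 ⊢
        exact h1)
    (by
      intro j hj
      have h1 := hself n j le_rfl hj
      simp only [col]
      split_ifs with g1 g2
      · decide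
      · decide
      · exfalso
        apply g2
        refine ⟨(j:ℝ)/n, hunit j hj, ?_⟩
        have : P n j = (1, (j:ℝ)/n) := by simp [P, hnn]
        rw [this] at h1 ⊢
        exact h1)
    (by
      intro j hj
      have h1 := hself 0 j (Nat.zero_le _) hj
      have h2 := (hF _ (hP 0 j (Nat.zero_le _) hj)).1
      simp only [col]
      split_ifs with g1 g2
      · decide
      · exfalso
        obtain ⟨t, ht, htV⟩ := g2
        exact hlr _ h2 _ (hunit j hj) t ht (by simpa [P] using h1) htV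
      · decide)
    (by
      intro i hi
      have h1 := hself i n hi le_rfl
      simp only [col]
      rw [if_pos]
      refine ⟨(i:ℝ)/n, hunit i hi, ?_⟩
      have : P i n = ((i:ℝ)/n, 1) := by simp [P, hnn]
      rw [this] at h1 ⊢
      exact h1)
  -- the corner point
  have hpij := hP i j hi.le hj.le
  have key : ∀ i' j', i ≤ i' → i' ≤ i + 1 → j ≤ j' → j' ≤ j + 1 →
      F (P i' j') ∈ 𝒱 ∧ κ (P i j) ∈ F (P i' j') := by
    intro i' j' h1 h2 h3 h4
    have hi'n : i' ≤ n := by omega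
    have hj'n : j' ≤ n := by omega
    have := hF _ (hP i' j' hi'n hj'n)
    refine ⟨this.1, this.2 ?_⟩
    rw [Metric.mem_ball, Prod.dist_eq, max_lt_iff]
    have gi : |(i:ℝ)/n - (i':ℝ)/n| < δ := by
      have e1 : (i:ℝ) ≤ i' := by exact_mod_cast h1
      have e2 : (i':ℝ) ≤ i + 1 := by exact_mod_cast h2
      rw [← sub_div, abs_div, abs_of_pos hn0]
      refine lt_of_le_of_lt ?_ hnδ
      apply div_le_div_of_nonneg_right _ hn0.le
      rw [abs_le]; constructor <;> linarith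
    have gj : |(j:ℝ)/n - (j':ℝ)/n| < δ := by
      have e1 : (j:ℝ) ≤ j' := by exact_mod_cast h3
      have e2 : (j':ℝ) ≤ j + 1 := by exact_mod_cast h4
      rw [← sub_div, abs_div, abs_of_pos hn0]
      refine lt_of_le_of_lt ?_ hnδ
      apply div_le_div_of_nonneg_right _ hn0.le
      rw [abs_le]; constructor <;> linarith
    exact ⟨by simpa [P, Real.dist_eq] using gi, by simpa [P, Real.dist_eq] using gj⟩
  have k1 := key i j le_rfl (by omega) le_rfl (by omega)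
  have k2 := key (i+1) j (by omega) le_rfl le_rfl (by omega)
  have k3 := key i (j+1) le_rfl (by omega) (by omega) le_rfl
  have k4 := key (i+1) (j+1) (by omega) le_rfl (by omega) le_rfl
  have pick : ∀ c : Fin 3, (col (F (P i j)) = c ∨ col (F (P (i+1) j)) = c ∨
      col (F (P i (j+1))) = c ∨ col (F (P (i+1) (j+1))) = c) →
      ∃ V, V ∈ 𝒱 ∧ κ (P i j) ∈ V ∧ col V = c := by
    rintro c (h | h | h | h)
    · exact ⟨_, k1.1, k1.2, h⟩
    · exact ⟨_, k2.1, k2.2, h⟩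
    · exact ⟨_, k3.1, k3.2, h⟩
    · exact ⟨_, k4.1, k4.2, h⟩
  obtain ⟨V0, hV0, hV0', hc0⟩ := pick 0 c0
  obtain ⟨V1, hV1, hV1', hc1⟩ := pick 1 c1
  obtain ⟨V2, hV2, hV2', hc2⟩ := pick 2 c2
  have h01 : V0 ≠ V1 := by rintro rfl; rw [hc0] at hc1; exact absurd hc1 (by decide)
  have h02 : V0 ≠ V2 := by rintro rfl; rw [hc0] at hc2; exact absurd hc2 (by decide)
  have h12 : V1 ≠ V2 := by rintro rfl; rw [hc1] at hc2; exact absurd hc2 (by decide)
  have hfin : {V | V ∈ 𝒱 ∧ κ (P i j) ∈ V}.Finite :=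
    𝒱.finite_toSet.subset (fun V hV => hV.1)
  have hsub : (({V0, V1, V2} : Finset (Set E)) : Set (Set E)) ⊆ {V | V ∈ 𝒱 ∧ κ (P i j) ∈ V} := by
    intro V hV
    simp only [Finset.coe_insert, Finset.coe_singleton, Set.mem_insert_iff,
      Set.mem_singleton_iff] at hV
    rcases hV with rfl | rfl | rfl
    · exact ⟨hV0, hV0'⟩
    · exact ⟨hV1, hV1'⟩
    · exact ⟨hV2, hV2'⟩
  have h3 := Set.ncard_le_ncard hsub hfin
  rw [Set.ncard_coe_finset] at h3
  have h4 : ({V0, V1, V2} : Finset (Set E)).card = 3 := by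
    rw [Finset.card_eq_three]
    exact ⟨V0, V1, V2, h01, h02, h12, rfl⟩
  have h5 := hord (P i j) hpij
  omega

end Pool.Agent.Helper648.Square
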