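import Mathlib
import Pool.Agent.Helper648.Square

set_option autoImplicit false

namespace Pool.Agent.Helper648.Cube

open Pool.Agent.Helper648.Square (w)

theorem w_miss : ∀ m a b c d : Fin 3, a ≠ m → b ≠ m → c ≠ m → d ≠ m →
    w a b + w b d - w c d - w a c = 0 := by
  decide

section discrete

variable (l : ℕ → ℕ → ℕ → Fin 3)

/-- circulation around a horizontal face -/
def H (i j k : ℕ) : ℤ :=
  w (l i j k) (l (i+1) j k) + w (l (i+1) j k) (l (i+1) (j+1) k)
    - w (l i (j+1) k) (l (i+1) (j+1) k) - w (l i j k) (l i (j+1) k)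

/-- circulation around a face with normal in the first direction -/
def X (i j k : ℕ) : ℤ :=
  w (l i j k) (l i (j+1) k) + w (l i (j+1) k) (l i (j+1) (k+1))
    - w (l i j (k+1)) (l i (j+1) (k+1)) - w (l i j k) (l i j (k+1))

/-- circulation around a face with normal in the second direction -/
def Y (i j k : ℕ) : ℤ :=
  w (l i j k) (l i j (k+1)) + w (l i j (k+1)) (l (i+1) j (k+1))
    - w (l (i+1) j k) (l (i+1) j (k+1)) - w (l i j k) (l (i+1) j k)

theorem closed (i j k : ℕ) :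
    (X l (i+1) j k - X l i j k) + (Y l i (j+1) k - Y l i j k) + (H l i j (k+1) - H l i j k) = 0 := by
  unfold X Y H
  ring

theorem H_miss {m : Fin 3} {i j k : ℕ} (h1 : l i j k ≠ m) (h2 : l (i+1) j k ≠ m)
    (h3 : l i (j+1) k ≠ m) (h4 : l (i+1) (j+1) k ≠ m) : H l i j k = 0 :=
  w_miss m _ _ _ _ h1 h2 h3 h4

theorem X_miss {m : Fin 3} {i j k : ℕ} (h1 : l i j k ≠ m) (h2 : l i (j+1) k ≠ m)
    (h3 : l i j (k+1) ≠ m) (h4 : l i (j+1) (k+1) ≠ m) : X l i j k = 0 :=
  w_miss m _ _ _ _ h1 h2 h3 h4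

theorem Y_miss {m : Fin 3} {i j k : ℕ} (h1 : l i j k ≠ m) (h2 : l i j (k+1) ≠ m)
    (h3 : l (i+1) j k ≠ m) (h4 : l (i+1) j (k+1) ≠ m) : Y l i j k = 0 :=
  w_miss m _ _ _ _ h1 h2 h3 h4

/-- the total circulation of a labelled square with the standard boundary condition is one -/
theorem sum_square (n : ℕ) (a : ℕ → ℕ → Fin 3)
    (hx0 : ∀ j, j ≤ n → a 0 j ≠ 1) (hx1 : ∀ j, j ≤ n → a n j ≠ 0)
    (hy0 : ∀ i, i ≤ n → a i 0 ≠ 2) (hy1 : ∀ i, i ≤ n → a i n = 2) :
    ∑ i ∈ Finset.range n, ∑ j ∈ Finset.range n,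
      (w (a i j) (a (i+1) j) + w (a (i+1) j) (a (i+1) (j+1))
        - w (a i (j+1)) (a (i+1) (j+1)) - w (a i j) (a i (j+1))) = 1 := by
  have h1 : ∑ i ∈ Finset.range n, ∑ j ∈ Finset.range n,
      (w (a i j) (a (i+1) j) + w (a (i+1) j) (a (i+1) (j+1))
        - w (a i (j+1)) (a (i+1) (j+1)) - w (a i j) (a i (j+1)))
      = (∑ i ∈ Finset.range n, ∑ j ∈ Finset.range n,
          (w (a i j) (a (i+1) j) - w (a i (j+1)) (a (i+1) (j+1))))
        + ∑ j ∈ Finset.range n, ∑ i ∈ Finset.range n,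
          (w (a (i+1) j) (a (i+1) (j+1)) - w (a i j) (a i (j+1))) := by
    rw [Finset.sum_comm (s := Finset.range n) (t := Finset.range n)
      (f := fun j i => (w (a (i+1) j) (a (i+1) (j+1)) - w (a i j) (a i (j+1)))),
      ← Finset.sum_add_distrib]
    apply Finset.sum_congr rfl
    intro i _
    rw [← Finset.sum_add_distrib]
    apply Finset.sum_congr rfl
    intro j _
    ring
  have h2 : ∀ i, ∑ j ∈ Finset.range n,
      (w (a i j) (a (i+1) j) - w (a i (j+1)) (a (i+1) (j+1)))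
      = w (a i 0) (a (i+1) 0) - w (a i n) (a (i+1) n) := by
    intro i
    rw [Finset.sum_range_sub' (fun j => w (a i j) (a (i+1) j))]
  have h3 : ∀ j, ∑ i ∈ Finset.range n,
      (w (a (i+1) j) (a (i+1) (j+1)) - w (a i j) (a i (j+1)))
      = w (a n j) (a n (j+1)) - w (a 0 j) (a 0 (j+1)) := by
    intro j
    rw [Finset.sum_range_sub (fun i => w (a i j) (a i (j+1)))]
  rw [h1]
  simp only [h2, h3]
  have h4 : ∑ j ∈ Finset.range n, (w (a n j) (a n (j+1)) - w (a 0 j) (a 0 (j+1))) = 0 := by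
    apply Finset.sum_eq_zero
    intro j hj
    have hj' := Finset.mem_range.1 hj
    have a1 := hx1 j hj'.le
    have a2 := hx1 (j+1) hj'
    have a3 := hx0 j hj'.le
    have a4 := hx0 (j+1) hj'
    have e1 : ∀ p q : Fin 3, p ≠ 0 → q ≠ 0 → w p q = 0 := by decide
    have e2 : ∀ p q : Fin 3, p ≠ 1 → q ≠ 1 → w p q = 0 := by decide
    rw [e1 _ _ a1 a2, e2 _ _ a3 a4]; simp
  have h5 : ∑ i ∈ Finset.range n, (w (a i 0) (a (i+1) 0) - w (a i n) (a (i+1) n)) = 1 := by
    let b : Fin 3 → ℤ := fun p => if p = 1 then 1 else 0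
    have e3 : ∀ p q : Fin 3, p ≠ 2 → q ≠ 2 →
        w p q = (if q = 1 then 1 else 0) - (if p = 1 then 1 else 0) := by decide
    have e4 : w 2 2 = 0 := by decide
    have : ∀ i ∈ Finset.range n, (w (a i 0) (a (i+1) 0) - w (a i n) (a (i+1) n))
        = b (a (i+1) 0) - b (a i 0) := by
      intro i hi
      have hi' := Finset.mem_range.1 hi
      rw [hy1 i hi'.le, hy1 (i+1) hi', e4, e3 _ _ (hy0 i hi'.le) (hy0 (i+1) hi')]
      simp [b]
    rw [Finset.sum_congr rfl this, Finset.sum_range_sub (fun i => b (a i 0))]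
    have g1 : a n 0 = 1 := by
      have q1 := hx1 0 (Nat.zero_le _)
      have q2 := hy0 n le_rfl
      revert q1 q2
      generalize a n 0 = z
      revert z
      decide
    have g2 : a 0 0 ≠ 1 := hx0 0 (Nat.zero_le _)
    simp [b, g1, g2]
  rw [h4, h5]; norm_num

theorem grid3 (n : ℕ) (χ : ℕ → ℕ → ℕ → ℤ)
    (hcube : ∀ i j k, i < n → j < n → k < n →
      (∃ m : Fin 3, ∀ i' j' k', i ≤ i' → i' ≤ i + 1 → j ≤ j' → j' ≤ j + 1 → k ≤ k' → k' ≤ k + 1 →
        l i' j' k' ≠ m) ∨
      (∀ i' j' k', i ≤ i' → i' ≤ i + 1 → j ≤ j' → j' ≤ j + 1 → k ≤ k' → k' ≤ k + 1 →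
        χ i' j' k' = χ i j k))
    (hx0 : ∀ j k, j ≤ n → k ≤ n → l 0 j k ≠ 1) (hx1 : ∀ j k, j ≤ n → k ≤ n → l n j k ≠ 0)
    (hy0 : ∀ i k, i ≤ n → k ≤ n → l i 0 k ≠ 2) (hy1 : ∀ i k, i ≤ n → k ≤ n → l i n k = 2)
    (hbot : ∀ i j, i ≤ n → j ≤ n → χ i j 0 = 0)
    (htop : ∀ i j, i < n → j < n →
      (∃ m : Fin 3, l i j n ≠ m ∧ l (i+1) j n ≠ m ∧ l i (j+1) n ≠ m ∧ l (i+1) (j+1) n ≠ m) ∨
        χ i j n = 1) : False := by
  -- cube identity with cutoff
  have hc : ∀ i j k, i < n → j < n → k < n →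
      (χ (i+1) j k * X l (i+1) j k - χ i j k * X l i j k)
      + (χ i (j+1) k * Y l i (j+1) k - χ i j k * Y l i j k)
      + (χ i j (k+1) * H l i j (k+1) - χ i j k * H l i j k) = 0 := by
    intro i j k hi hj hk
    rcases hcube i j k hi hj hk with ⟨m, hm⟩ | hχ
    · have x1 : X l (i+1) j k = 0 := X_miss l (hm _ _ _ (by omega) (by omega) (by omega) (by omega) (by omega) (by omega))
        (hm _ _ _ (by omega) (by omega) (by omega) (by omega) (by omega) (by omega))
        (hm _ _ _ (by omega) (by omega) (by omega) (by omega) (by omega) (by omega))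
        (hm _ _ _ (by omega) (by omega) (by omega) (by omega) (by omega) (by omega))
      have x0 : X l i j k = 0 := X_miss l (hm _ _ _ (by omega) (by omega) (by omega) (by omega) (by omega) (by omega))
        (hm _ _ _ (by omega) (by omega) (by omega) (by omega) (by omega) (by omega))
        (hm _ _ _ (by omega) (by omega) (by omega) (by omega) (by omega) (by omega))
        (hm _ _ _ (by omega) (by omega) (by omega) (by omega) (by omega) (by omega))
      have y1 : Y l i (j+1) k = 0 := Y_miss l (hm _ _ _ (by omega) (by omega) (by omega) (by omega) (by omega) (by omega))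
        (hm _ _ _ (by omega) (by omega) (by omega) (by omega) (by omega) (by omega))
        (hm _ _ _ (by omega) (by omega) (by omega) (by omega) (by omega) (by omega))
        (hm _ _ _ (by omega) (by omega) (by omega) (by omega) (by omega) (by omega))
      have y0 : Y l i j k = 0 := Y_miss l (hm _ _ _ (by omega) (by omega) (by omega) (by omega) (by omega) (by omega))
        (hm _ _ _ (by omega) (by omega) (by omega) (by omega) (by omega) (by omega))
        (hm _ _ _ (by omega) (by omega) (by omega) (by omega) (by omega) (by omega))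
        (hm _ _ _ (by omega) (by omega) (by omega) (by omega) (by omega) (by omega))
      have z1 : H l i j (k+1) = 0 := H_miss l (hm _ _ _ (by omega) (by omega) (by omega) (by omega) (by omega) (by omega))
        (hm _ _ _ (by omega) (by omega) (by omega) (by omega) (by omega) (by omega))
        (hm _ _ _ (by omega) (by omega) (by omega) (by omega) (by omega) (by omega))
        (hm _ _ _ (by omega) (by omega) (by omega) (by omega) (by omega) (by omega))
      have z0 : H l i j k = 0 := H_miss l (hm _ _ _ (by omega) (by omega) (by omega) (by omega) (by omega) (by omega))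
        (hm _ _ _ (by omega) (by omega) (by omega) (by omega) (by omega) (by omega))
        (hm _ _ _ (by omega) (by omega) (by omega) (by omega) (by omega) (by omega))
        (hm _ _ _ (by omega) (by omega) (by omega) (by omega) (by omega) (by omega))
      rw [x1, x0, y1, y0, z1, z0]; ring
    · rw [hχ (i+1) j k (by omega) le_rfl le_rfl (by omega) le_rfl (by omega),
        hχ i (j+1) k le_rfl (by omega) (by omega) le_rfl le_rfl (by omega),
        hχ i j (k+1) le_rfl (by omega) le_rfl (by omega) (by omega) le_rfl]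
      have := closed l i j k
      have h2 : χ i j k * ((X l (i+1) j k - X l i j k) + (Y l i (j+1) k - Y l i j k) + (H l i j (k+1) - H l i j k)) = 0 := by
        rw [this, mul_zero]
      linarith
  have hsum : ∑ i ∈ Finset.range n, ∑ j ∈ Finset.range n, ∑ k ∈ Finset.range n,
      ((χ (i+1) j k * X l (i+1) j k - χ i j k * X l i j k)
      + (χ i (j+1) k * Y l i (j+1) k - χ i j k * Y l i j k)
      + (χ i j (k+1) * H l i j (k+1) - χ i j k * H l i j k)) = 0 := by
    apply Finset.sum_eq_zero; intro i hi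
    apply Finset.sum_eq_zero; intro j hj
    apply Finset.sum_eq_zero; intro k hk
    exact hc i j k (Finset.mem_range.1 hi) (Finset.mem_range.1 hj) (Finset.mem_range.1 hk)
  have e1 : ∀ i j, ∑ k ∈ Finset.range n,
      ((χ (i+1) j k * X l (i+1) j k - χ i j k * X l i j k)
      + (χ i (j+1) k * Y l i (j+1) k - χ i j k * Y l i j k)
      + (χ i j (k+1) * H l i j (k+1) - χ i j k * H l i j k))
      = (∑ k ∈ Finset.range n, (χ (i+1) j k * X l (i+1) j k - χ i j k * X l i j k))
        + (∑ k ∈ Finset.range n, (χ i (j+1) k * Y l i (j+1) k - χ i j k * Y l i j k))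
        + (χ i j n * H l i j n - χ i j 0 * H l i j 0) := by
    intro i j
    rw [Finset.sum_add_distrib, Finset.sum_add_distrib,
      Finset.sum_range_sub (fun k => χ i j k * H l i j k)]
  simp only [e1, Finset.sum_add_distrib] at hsum
  -- first term
  have t1 : ∑ i ∈ Finset.range n, ∑ j ∈ Finset.range n, ∑ k ∈ Finset.range n,
      (χ (i+1) j k * X l (i+1) j k - χ i j k * X l i j k) = 0 := by
    rw [Finset.sum_comm]
    apply Finset.sum_eq_zero; intro j hj
    rw [Finset.sum_comm]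
    apply Finset.sum_eq_zero; intro k hk
    rw [Finset.sum_range_sub (fun i => χ i j k * X l i j k)]
    have hj' := Finset.mem_range.1 hj
    have hk' := Finset.mem_range.1 hk
    rw [X_miss l (m := 0) (hx1 j k (by omega) (by omega)) (hx1 _ _ (by omega) (by omega))
      (hx1 _ _ (by omega) (by omega)) (hx1 _ _ (by omega) (by omega)),
      X_miss l (m := 1) (hx0 j k (by omega) (by omega)) (hx0 _ _ (by omega) (by omega))
      (hx0 _ _ (by omega) (by omega)) (hx0 _ _ (by omega) (by omega))]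
    ring
  have t2 : ∑ i ∈ Finset.range n, ∑ j ∈ Finset.range n, ∑ k ∈ Finset.range n,
      (χ i (j+1) k * Y l i (j+1) k - χ i j k * Y l i j k) = 0 := by
    apply Finset.sum_eq_zero; intro i hi
    rw [Finset.sum_comm]
    apply Finset.sum_eq_zero; intro k hk
    rw [Finset.sum_range_sub (fun j => χ i j k * Y l i j k)]
    have hi' := Finset.mem_range.1 hi
    have hk' := Finset.mem_range.1 hk
    have hy1' : ∀ i k, i ≤ n → k ≤ n → l i n k ≠ 0 := by
      intro i k h1 h2; rw [hy1 i k h1 h2]; decide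
    rw [Y_miss l (m := 0) (hy1' i k (by omega) (by omega)) (hy1' _ _ (by omega) (by omega))
      (hy1' _ _ (by omega) (by omega)) (hy1' _ _ (by omega) (by omega)),
      Y_miss l (m := 2) (hy0 i k (by omega) (by omega)) (hy0 _ _ (by omega) (by omega))
      (hy0 _ _ (by omega) (by omega)) (hy0 _ _ (by omega) (by omega))]
    ring
  have t3 : ∑ i ∈ Finset.range n, ∑ j ∈ Finset.range n,
      (χ i j n * H l i j n - χ i j 0 * H l i j 0) = 1 := by
    have hs := sum_square n (fun i j => l i j n) (fun j hj => hx0 j n hj le_rfl)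
      (fun j hj => hx1 j n hj le_rfl) (fun i hi => hy0 i n hi le_rfl) (fun i hi => hy1 i n hi le_rfl)
    rw [← hs]
    apply Finset.sum_congr rfl; intro i hi
    apply Finset.sum_congr rfl; intro j hj
    have hi' := Finset.mem_range.1 hi
    have hj' := Finset.mem_range.1 hj
    rw [hbot i j (by omega) (by omega), zero_mul, sub_zero]
    change χ i j n * H l i j n = H l i j n
    rcases htop i j hi' hj' with ⟨m, h1, h2, h3, h4⟩ | h
    · rw [H_miss l h1 h2 h3 h4]; ring
    · rw [h]; ring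
  rw [t1, t2, t3] at hsum
  norm_num at hsum

end discrete

/-- the closed unit cube -/
def Q : Set (ℝ × ℝ × ℝ) := Set.Icc (0:ℝ) 1 ×ˢ (Set.Icc (0:ℝ) 1 ×ˢ Set.Icc (0:ℝ) 1)

theorem isCompact_Q : IsCompact Q := isCompact_Icc.prod (isCompact_Icc.prod isCompact_Icc)

theorem cube_lemma (𝒱 : Finset (Set (ℝ × ℝ × ℝ))) (W₀ W₁ : Set (ℝ × ℝ × ℝ))
    (hopen : ∀ V ∈ 𝒱, IsOpen V) (hW₀ : IsOpen W₀) (hW₁ : IsOpen W₁)
    (hdisj : ∀ p ∈ W₀, p ∉ W₁)
    (hcov : ∀ p ∈ Q, p ∈ W₀ ∨ p ∈ W₁ ∨ ∃ V ∈ 𝒱, p ∈ V)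
    (hord : ∀ p, ∀ V₁ ∈ 𝒱, ∀ V₂ ∈ 𝒱, ∀ V₃ ∈ 𝒱, p ∈ V₁ → p ∈ V₂ → p ∈ V₃ →
      V₁ = V₂ ∨ V₁ = V₃ ∨ V₂ = V₃)
    (hx : ∀ V ∈ 𝒱, ∀ p ∈ Q, ∀ q ∈ Q, p ∈ V → q ∈ V → p.1 = 0 → q.1 = 1 → False)
    (hy : ∀ V ∈ 𝒱, ∀ p ∈ Q, ∀ q ∈ Q, p ∈ V → q ∈ V → p.2.1 = 0 → q.2.1 = 1 → False)
    (h₀ : ∀ p ∈ Q, p.2.2 = 1 → p ∉ W₀) (h₁ : ∀ p ∈ Q, p.2.2 = 0 → p ∉ W₁) : False := by
  classical
  obtain ⟨δ, hδ, hleb⟩ := lebesgue_number_lemma_of_metric (ι := Option (Option {V // V ∈ 𝒱}))
    (c := fun o => match o with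
      | none => W₀
      | some none => W₁
      | some (some V) => V.1) isCompact_Q (by
      rintro (_ | _ | V)
      · exact hW₀
      · exact hW₁
      · exact hopen V.1 V.2) (by
      intro p hp
      rw [Set.mem_iUnion]
      rcases hcov p hp with h | h | ⟨V, hV, h⟩
      · exact ⟨none, h⟩
      · exact ⟨some none, h⟩
      · exact ⟨some (some ⟨V, hV⟩), h⟩)
  obtain ⟨n, hn⟩ := exists_nat_gt (1/δ)
  have hn0 : (0:ℝ) < n := lt_trans (by positivity) hn
  have hnδ : 1 / (n:ℝ) < δ := by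
    rw [div_lt_iff₀ hn0]; rw [div_lt_iff₀ hδ] at hn; linarith
  let P : ℕ → ℕ → ℕ → ℝ × ℝ × ℝ := fun i j k => ((i:ℝ)/n, (j:ℝ)/n, (k:ℝ)/n)
  have hunit : ∀ i : ℕ, i ≤ n → ((i:ℝ)/n) ∈ Set.Icc (0:ℝ) 1 := by
    intro i hi
    have hi' : (i:ℝ) ≤ n := by exact_mod_cast hi
    exact ⟨by positivity, (div_le_one hn0).2 hi'⟩
  have hP : ∀ i j k, i ≤ n → j ≤ n → k ≤ n → P i j k ∈ Q := by
    intro i j k hi hj hk
    exact ⟨hunit i hi, hunit j hj, hunit k hk⟩
  have hnn : ((n:ℝ)/n) = 1 := div_self hn0.ne'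
  -- choice of member
  have hch : ∀ p : ℝ × ℝ × ℝ, ∃ M : Set (ℝ × ℝ × ℝ), p ∈ Q →
      (M = W₀ ∨ M = W₁ ∨ M ∈ 𝒱) ∧ Metric.ball p δ ⊆ M := by
    intro p
    by_cases hp : p ∈ Q
    · obtain ⟨o, ho⟩ := hleb p hp
      rcases o with _ | _ | V
      · exact ⟨W₀, fun _ => ⟨Or.inl rfl, ho⟩⟩
      · exact ⟨W₁, fun _ => ⟨Or.inr (Or.inl rfl), ho⟩⟩
      · exact ⟨V.1, fun _ => ⟨Or.inr (Or.inr V.2), ho⟩⟩
    · exact ⟨∅, fun h => absurd h hp⟩
  choose M hM using hch
  -- label of a member set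
  let a : Set (ℝ × ℝ × ℝ) → Fin 3 := fun V =>
    if ∃ q ∈ Q, q ∈ V ∧ q.2.1 = 1 then 2 else if ∃ q ∈ Q, q ∈ V ∧ q.1 = 1 then 1 else 0
  let lab : ℝ × ℝ × ℝ → Fin 3 := fun p =>
    if M p ∈ 𝒱 then a (M p) else if p.2.1 = 1 then 2 else if p.1 = 1 then 1 else 0
  have hself : ∀ p ∈ Q, p ∈ M p := fun p hp => (hM p hp).2 (Metric.mem_ball_self hδ)
  have hadj : ∀ i j k i' j' k' : ℕ, i ≤ i' + 1 → i' ≤ i + 1 → j ≤ j' + 1 → j' ≤ j + 1 →
      k ≤ k' + 1 → k' ≤ k + 1 → P i j k ∈ Metric.ball (P i' j' k') δ := by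
    have one : ∀ i i' : ℕ, i ≤ i' + 1 → i' ≤ i + 1 → dist ((i:ℝ)/n) ((i':ℝ)/n) < δ := by
      intro i i' h1 h2
      have e1 : (i:ℝ) ≤ i' + 1 := by exact_mod_cast h1
      have e2 : (i':ℝ) ≤ i + 1 := by exact_mod_cast h2
      rw [Real.dist_eq, ← sub_div, abs_div, abs_of_pos hn0]
      refine lt_of_le_of_lt ?_ hnδ
      apply div_le_div_of_nonneg_right _ hn0.le
      rw [abs_le]; constructor <;> linarith
    intro i j k i' j' k' h1 h2 h3 h4 h5 h6
    rw [Metric.mem_ball, Prod.dist_eq, Prod.dist_eq, max_lt_iff, max_lt_iff]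
    exact ⟨one i i' h1 h2, one j j' h3 h4, one k k' h5 h6⟩
  let χ : ℕ → ℕ → ℕ → ℤ := fun i j k => if P i j k ∈ W₁ then 1 else 0
  -- general dichotomy for a cluster of adjacent vertices
  refine grid3 (fun i j k => lab (P i j k)) n χ ?_ ?_ ?_ ?_ ?_ ?_ ?_
  · intro i j k hi hj hk
    by_cases hall : ∀ i' j' k', i ≤ i' → i' ≤ i + 1 → j ≤ j' → j' ≤ j + 1 → k ≤ k' → k' ≤ k + 1 →
        M (P i' j' k') ∈ 𝒱
    · left
      by_contra hcon
      push Not at hcon
      have pick : ∀ m : Fin 3, ∃ V ∈ 𝒱, P i j k ∈ V ∧ a V = m := by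
        intro m
        obtain ⟨i', j', k', g1, g2, g3, g4, g5, g6, g⟩ := hcon m
        have hmem := hall i' j' k' g1 g2 g3 g4 g5 g6
        have hq := hP i' j' k' (by omega) (by omega) (by omega)
        refine ⟨M (P i' j' k'), hmem, ?_, ?_⟩
        · exact (hM _ hq).2 (hadj i j k i' j' k' (by omega) (by omega) (by omega) (by omega)
            (by omega) (by omega))
        · simp only [lab] at g
          rw [if_pos hmem] at g
          exact g
      obtain ⟨V0, hV0, p0, c0⟩ := pick 0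
      obtain ⟨V1, hV1, p1, c1⟩ := pick 1
      obtain ⟨V2, hV2, p2, c2⟩ := pick 2
      rcases hord _ V0 hV0 V1 hV1 V2 hV2 p0 p1 p2 with h | h | h
      · rw [h, c1] at c0; exact absurd c0 (by decide)
      · rw [h, c2] at c0; exact absurd c0 (by decide)
      · rw [h, c2] at c1; exact absurd c1 (by decide)
    · right
      push Not at hall
      obtain ⟨i₀, j₀, k₀, g1, g2, g3, g4, g5, g6, g⟩ := hall
      have hq := hP i₀ j₀ k₀ (by omega) (by omega) (by omega)
      have hMq := hM _ hq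
      have hin : ∀ i' j' k', i ≤ i' → i' ≤ i + 1 → j ≤ j' → j' ≤ j + 1 → k ≤ k' → k' ≤ k + 1 →
          P i' j' k' ∈ M (P i₀ j₀ k₀) := by
        intro i' j' k' f1 f2 f3 f4 f5 f6
        exact hMq.2 (hadj i' j' k' i₀ j₀ k₀ (by omega) (by omega) (by omega) (by omega)
            (by omega) (by omega))
      rcases hMq.1 with h | h | h
      · have hz : ∀ i' j' k', i ≤ i' → i' ≤ i + 1 → j ≤ j' → j' ≤ j + 1 → k ≤ k' → k' ≤ k + 1 →
            χ i' j' k' = 0 := by
          intro i' j' k' f1 f2 f3 f4 f5 f6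
          have := hin i' j' k' f1 f2 f3 f4 f5 f6
          rw [h] at this
          simp only [χ]
          rw [if_neg (hdisj _ this)]
        intro i' j' k' f1 f2 f3 f4 f5 f6
        rw [hz i' j' k' f1 f2 f3 f4 f5 f6, hz i j k le_rfl (by omega) le_rfl (by omega) le_rfl (by omega)]
      · have hz : ∀ i' j' k', i ≤ i' → i' ≤ i + 1 → j ≤ j' → j' ≤ j + 1 → k ≤ k' → k' ≤ k + 1 →
            χ i' j' k' = 1 := by
          intro i' j' k' f1 f2 f3 f4 f5 f6
          have := hin i' j' k' f1 f2 f3 f4 f5 f6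
          rw [h] at this
          simp only [χ]
          rw [if_pos this]
        intro i' j' k' f1 f2 f3 f4 f5 f6
        rw [hz i' j' k' f1 f2 f3 f4 f5 f6, hz i j k le_rfl (by omega) le_rfl (by omega) le_rfl (by omega)]
      · exact absurd h g
  · -- x = 0
    intro j k hj hk
    have hq := hP 0 j k (Nat.zero_le _) hj hk
    simp only [lab]
    by_cases hm : M (P 0 j k) ∈ 𝒱
    · rw [if_pos hm]
      simp only [a]
      split_ifs with g1 g2
      · decide
      · exfalso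
        obtain ⟨q, hqQ, hqV, hq1⟩ := g2
        exact hx _ hm _ hq q hqQ (hself _ hq) hqV (by simp [P]) hq1
      · decide
    · rw [if_neg hm]
      split_ifs with g1 g2
      · decide
      · exfalso; simp [P] at g2
      · decide
  · -- x = 1
    intro j k hj hk
    have hq := hP n j k le_rfl hj hk
    simp only [lab]
    by_cases hm : M (P n j k) ∈ 𝒱
    · rw [if_pos hm]
      simp only [a]
      split_ifs with g1 g2
      · decide
      · decide
      · exfalso
        apply g2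
        exact ⟨_, hq, hself _ hq, by simp [P, hnn]⟩
    · rw [if_neg hm]
      by_cases g1 : (P n j k).2.1 = 1
      · rw [if_pos g1]; decide
      · rw [if_neg g1, if_pos (by simp [P, hnn])]; decide
  · -- y = 0
    intro i k hi hk
    have hq := hP i 0 k hi (Nat.zero_le _) hk
    simp only [lab]
    by_cases hm : M (P i 0 k) ∈ 𝒱
    · rw [if_pos hm]
      simp only [a]
      split_ifs with g1 g2
      · exfalso
        obtain ⟨q, hqQ, hqV, hq1⟩ := g1
        exact hy _ hm _ hq q hqQ (hself _ hq) hqV (by simp [P]) hq1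
      · decide
      · decide
    · rw [if_neg hm]
      have g1 : ¬ ((P i 0 k).2.1 = 1) := by simp [P]
      rw [if_neg g1]
      split_ifs <;> decide
  · -- y = 1
    intro i k hi hk
    have hq := hP i n k hi le_rfl hk
    simp only [lab]
    by_cases hm : M (P i n k) ∈ 𝒱
    · rw [if_pos hm]
      simp only [a]
      rw [if_pos]
      exact ⟨_, hq, hself _ hq, by simp [P, hnn]⟩
    · rw [if_neg hm, if_pos]
      simp [P, hnn]
  · -- bottom
    intro i j hi hj
    simp only [χ]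
    rw [if_neg]
    exact h₁ _ (hP i j 0 hi hj (Nat.zero_le _)) (by simp [P])
  · -- top
    intro i j hi hj
    by_cases hall : ∀ i' j', i ≤ i' → i' ≤ i + 1 → j ≤ j' → j' ≤ j + 1 → M (P i' j' n) ∈ 𝒱
    · left
      by_contra hcon
      push Not at hcon
      have pick : ∀ m : Fin 3, ∃ V ∈ 𝒱, P i j n ∈ V ∧ a V = m := by
        intro m
        have : ∃ i' j', i ≤ i' ∧ i' ≤ i + 1 ∧ j ≤ j' ∧ j' ≤ j + 1 ∧ lab (P i' j' n) = m := by
          by_contra hno
          push Not at hno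
          exact hno (i+1) (j+1) (by omega) le_rfl (by omega) le_rfl
            (hcon m (hno i j le_rfl (by omega) le_rfl (by omega))
              (hno (i+1) j (by omega) le_rfl le_rfl (by omega))
              (hno i (j+1) le_rfl (by omega) (by omega) le_rfl))
        obtain ⟨i', j', g1, g2, g3, g4, g⟩ := this
        have hmem := hall i' j' g1 g2 g3 g4
        have hq := hP i' j' n (by omega) (by omega) le_rfl
        refine ⟨M (P i' j' n), hmem, ?_, ?_⟩
        · exact (hM _ hq).2 (hadj i j n i' j' n (by omega) (by omega) (by omega) (by omega)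
            (by omega) (by omega))
        · simp only [lab] at g
          rw [if_pos hmem] at g
          exact g
      obtain ⟨V0, hV0, p0, c0⟩ := pick 0
      obtain ⟨V1, hV1, p1, c1⟩ := pick 1
      obtain ⟨V2, hV2, p2, c2⟩ := pick 2
      rcases hord _ V0 hV0 V1 hV1 V2 hV2 p0 p1 p2 with h | h | h
      · rw [h, c1] at c0; exact absurd c0 (by decide)
      · rw [h, c2] at c0; exact absurd c0 (by decide)
      · rw [h, c2] at c1; exact absurd c1 (by decide)
    · right
      push Not at hall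
      obtain ⟨i₀, j₀, g1, g2, g3, g4, g⟩ := hall
      have hq := hP i₀ j₀ n (by omega) (by omega) le_rfl
      have hMq := hM _ hq
      have hin : P i j n ∈ M (P i₀ j₀ n) :=
        hMq.2 (hadj i j n i₀ j₀ n (by omega) (by omega) (by omega) (by omega)
            (by omega) (by omega))
      rcases hMq.1 with h | h | h
      · exfalso
        have := hself _ hq
        rw [h] at this
        exact h₀ _ hq (by simp [P, hnn]) this
      · rw [h] at hin
        simp only [χ]
        rw [if_pos hin]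
      · exact absurd h g

/-- separation of a compact set -/
theorem exists_sep {T : Type*} [MetricSpace T] (K A₀ A₁ : Set T) (hK : IsCompact K)
    (hA₀ : IsClosed A₀) (hA₁ : IsClosed A₁)
    (hno : ∀ C : Set T, C ⊆ K → IsCompact C → IsPreconnected C →
      ∀ p ∈ C, ∀ q ∈ C, p ∈ A₀ → q ∈ A₁ → False) :
    ∃ W₀ W₁ : Set T, IsOpen W₀ ∧ IsOpen W₁ ∧ (∀ p ∈ W₀, p ∉ W₁) ∧ K ⊆ W₀ ∪ W₁ ∧
      (∀ p ∈ A₁, p ∉ W₀) ∧ (∀ p ∈ A₀, p ∉ W₁) := by
  classical
  have : CompactSpace K := isCompact_iff_compactSpace.1 hK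
  let B₀ : Set K := Subtype.val ⁻¹' A₀
  let B₁ : Set K := Subtype.val ⁻¹' A₁
  have hB₀ : IsClosed B₀ := hA₀.preimage continuous_subtype_val
  have hB₁ : IsClosed B₁ := hA₁.preimage continuous_subtype_val
  -- clopen around each point
  have h1 : ∀ p ∈ B₀, ∃ Z : Set K, IsClopen Z ∧ p ∈ Z ∧ Z ∩ B₁ = ∅ := by
    intro p hp
    have hcc : connectedComponent p ∩ B₁ = ∅ := by
      rw [Set.eq_empty_iff_forall_notMem]
      rintro q ⟨hq1, hq2⟩
      refine hno (Subtype.val '' connectedComponent p) ?_ ?_ ?_ p.1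
        ⟨p, mem_connectedComponent, rfl⟩ q.1 ⟨q, hq1, rfl⟩ hp hq2
      · rintro _ ⟨z, _, rfl⟩; exact z.2
      · exact isClosed_connectedComponent.isCompact.image continuous_subtype_val
      · exact isPreconnected_connectedComponent.image _ continuous_subtype_val.continuousOn
    rw [connectedComponent_eq_iInter_isClopen] at hcc
    have hne : Nonempty { s : Set K // IsClopen s ∧ p ∈ s } := ⟨⟨Set.univ, isClopen_univ, trivial⟩⟩
    obtain ⟨s, hs⟩ := hB₁.isCompact.elim_directed_family_closed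
      (fun s : { s : Set K // IsClopen s ∧ p ∈ s } => (s : Set K)) (fun s => s.2.1.isClosed)
      (by rw [Set.inter_comm]; exact hcc) (by
        intro s t
        refine ⟨⟨s.1 ∩ t.1, s.2.1.inter t.2.1, s.2.2, t.2.2⟩, ?_, ?_⟩
        · exact Set.inter_subset_left
        · exact Set.inter_subset_right)
    exact ⟨s.1, s.2.1, s.2.2, by rw [Set.inter_comm]; exact hs⟩
  choose! Z hZc hZp hZB using h1
  obtain ⟨t, htB, hcov⟩ := hB₀.isCompact.elim_nhds_subcover Z
    (fun p hp => (hZc p hp).isOpen.mem_nhds (hZp p hp))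
  let Z' : Set K := ⋃ x ∈ t, Z x
  have hZ'c : IsClopen Z' := t.finite_toSet.isClopen_biUnion (fun x hx => hZc x (htB x hx))
  have hZ'B : Z' ∩ B₁ = ∅ := by
    rw [Set.eq_empty_iff_forall_notMem]
    rintro q ⟨hq1, hq2⟩
    obtain ⟨x, hx, hqx⟩ := Set.mem_iUnion₂.1 hq1
    have := hZB x (htB x hx)
    rw [Set.eq_empty_iff_forall_notMem] at this
    exact this q ⟨hqx, hq2⟩
  have hc0 : IsCompact (Subtype.val '' Z') := hZ'c.isClosed.isCompact.image continuous_subtype_val
  have hc1 : IsCompact (Subtype.val '' Z'ᶜ) :=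
    hZ'c.compl.isClosed.isCompact.image continuous_subtype_val
  have hd : Disjoint (Subtype.val '' Z') (Subtype.val '' Z'ᶜ) := by
    rw [Set.disjoint_image_iff Subtype.val_injective]
    exact disjoint_compl_right
  obtain ⟨U₀, U₁, hU₀, hU₁, hs0, hs1, hdd⟩ := SeparatedNhds.of_isCompact_isCompact hc0 hc1 hd
  refine ⟨U₀ \ A₁, U₁ \ A₀, hU₀.sdiff hA₁, hU₁.sdiff hA₀, ?_, ?_, ?_, ?_⟩
  · rintro p ⟨hp, _⟩ ⟨hp', _⟩
    exact (Set.disjoint_left.1 hdd) hp hp'
  · intro p hp
    by_cases hpZ : (⟨p, hp⟩ : K) ∈ Z'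
    · left
      refine ⟨hs0 ⟨_, hpZ, rfl⟩, fun hpA => ?_⟩
      rw [Set.eq_empty_iff_forall_notMem] at hZ'B
      exact hZ'B ⟨p, hp⟩ ⟨hpZ, hpA⟩
    · right
      refine ⟨hs1 ⟨_, hpZ, rfl⟩, fun hpA => hpZ (hcov hpA)⟩
  · rintro p hp ⟨_, h⟩; exact h hp
  · rintro p hp ⟨_, h⟩; exact h hp

end Pool.Agent.Helper648.Cube
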