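import Mathlib

set_option autoImplicit false

namespace Pool.Agent.Helper648.Nobel

abbrev E3 := EuclideanSpace ℝ (Fin 3)

/-- at most one rational coordinate -/
def N : Set E3 := {x | ∀ i j, i ≠ j → x i ∈ Set.range ((↑) : ℚ → ℝ) → x j ∉ Set.range ((↑) : ℚ → ℝ)}

abbrev Code := (Fin 3 → ℚ) × (Fin 3 → ℚ)

def box (c : Code) : Set E3 := {x | ∀ i, (c.1 i : ℝ) < x i ∧ x i < (c.2 i : ℝ)}
def cbox (c : Code) : Set E3 := {x | ∀ i, (c.1 i : ℝ) ≤ x i ∧ x i ≤ (c.2 i : ℝ)}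

theorem box_subset_cbox (c : Code) : box c ⊆ cbox c := fun _ hx i => ⟨(hx i).1.le, (hx i).2.le⟩

theorem cont_coord (i : Fin 3) : Continuous (fun x : E3 => x i) := by fun_prop

theorem isOpen_box (c : Code) : IsOpen (box c) := by
  have : box c = ⋂ i, ({x : E3 | (c.1 i : ℝ) < x i} ∩ {x : E3 | x i < (c.2 i : ℝ)}) := by
    ext x; simp [box]
  rw [this]
  apply isOpen_iInter_of_finite
  intro i
  exact (isOpen_lt continuous_const (cont_coord i)).inter (isOpen_lt (cont_coord i) continuous_const)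

theorem isClosed_cbox (c : Code) : IsClosed (cbox c) := by
  have : cbox c = ⋂ i, ({x : E3 | (c.1 i : ℝ) ≤ x i} ∩ {x : E3 | x i ≤ (c.2 i : ℝ)}) := by
    ext x; simp [cbox]
  rw [this]
  apply isClosed_iInter
  intro i
  exact (isClosed_le continuous_const (cont_coord i)).inter
    (isClosed_le (cont_coord i) continuous_const)

/-- one dimensional: rational interval around a point inside a neighbourhood -/
theorem exists_rat_Icc {z : ℝ} {S : Set ℝ} (hS : S ∈ nhds z) :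
    ∃ l u : ℚ, (l : ℝ) < z ∧ z < u ∧ Set.Icc (l : ℝ) u ⊆ S := by
  obtain ⟨a, b, hz, hab⟩ := mem_nhds_iff_exists_Ioo_subset.1 hS
  obtain ⟨l, hl1, hl2⟩ := exists_rat_btwn hz.1
  obtain ⟨u, hu1, hu2⟩ := exists_rat_btwn hz.2
  exact ⟨l, u, hl2, hu1, fun x hx => hab ⟨lt_of_lt_of_le hl1 hx.1, lt_of_le_of_lt hx.2 hu2⟩⟩

/-- product version -/
theorem exists_code {z : E3} {S : Fin 3 → Set ℝ} (hS : ∀ i, S i ∈ nhds (z i)) :
    ∃ c : Code, z ∈ box c ∧ ∀ x ∈ cbox c, ∀ i, x i ∈ S i := by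
  choose l u h1 h2 h3 using fun i => exists_rat_Icc (hS i)
  exact ⟨(l, u), fun i => ⟨h1 i, h2 i⟩, fun x hx i => h3 i (hx i)⟩

theorem exists_code_subset {z : E3} {W : Set E3} (hW : IsOpen W) (hz : z ∈ W) :
    ∃ c : Code, z ∈ box c ∧ cbox c ⊆ W := by
  have h1 : W ∈ nhds z := hW.mem_nhds hz
  -- transfer to the pi topology
  let e := EuclideanSpace.equiv (Fin 3) ℝ
  have h2 : e.symm ⁻¹' W ∈ nhds (e z) := by
    apply e.symm.continuous.continuousAt.preimage_mem_nhds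
    simpa using h1
  rw [nhds_pi, Filter.mem_pi] at h2
  obtain ⟨I, hI, t, ht, htW⟩ := h2
  obtain ⟨c, hc1, hc2⟩ := exists_code (z := z) (S := t) (fun i => ht i)
  refine ⟨c, hc1, fun x hx => ?_⟩
  have : e x ∈ I.pi t := fun i _ => hc2 x hx i
  have := htW this
  simpa using this

theorem dim_le_one_cover (A : Set E3) (f : E3 → E3) (hf : Continuous f)
    (hfA : ∀ y ∈ A, f y ∈ N)
    (hinv : ∀ y ∈ A, ∀ U : Set E3, IsOpen U → y ∈ U →
      ∃ W : Set E3, IsOpen W ∧ f y ∈ W ∧ ∀ y' ∈ A, f y' ∈ W → y' ∈ U)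
    (𝒰 : Finset (Set E3)) (hU : ∀ U ∈ 𝒰, IsOpen U) (hcov : A ⊆ ⋃₀ (↑𝒰 : Set (Set E3))) :
    ∃ 𝒱 : Finset (Set E3), (∀ V ∈ 𝒱, IsOpen V ∧ ∃ U ∈ 𝒰, V ∩ A ⊆ U) ∧
      A ⊆ ⋃₀ (↑𝒱 : Set (Set E3)) ∧ ∀ z ∈ A, {V | V ∈ 𝒱 ∧ z ∈ V}.ncard ≤ 2 := by
  classical
  -- enumeration of codes
  obtain ⟨c, hc⟩ := exists_surjective_nat Code
  let good : ℕ → Prop := fun n => ∃ U ∈ 𝒰, ∀ y ∈ A, f y ∈ box (c n) → y ∈ U
  have hgood : ∀ y ∈ A, ∃ n, good n ∧ f y ∈ box (c n) := by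
    intro y hy
    obtain ⟨U, hU1, hyU⟩ := hcov hy
    obtain ⟨W, hW, hyW, hWU⟩ := hinv y hy U (hU U hU1) hyU
    obtain ⟨d, hd1, hd2⟩ := exists_code_subset hW hyW
    obtain ⟨n, rfl⟩ := hc d
    exact ⟨n, ⟨U, hU1, fun y' hy' h => hWU y' hy' (hd2 (box_subset_cbox _ h))⟩, hd1⟩
  let V0 : ℕ → Set E3 := fun n => {x | good n ∧ x ∈ box (c n) ∧ ∀ m, m < n → good m → x ∉ cbox (c m)}
  let Z : Set E3 := {x | x ∈ N ∧ ∀ n, x ∉ V0 n}
  let good1 : ℕ → Prop := fun n => good n ∧ ∀ x ∈ Z, x ∈ cbox (c n) → x ∈ box (c n)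
  let V1 : ℕ → Set E3 := fun n => {x | good1 n ∧ x ∈ box (c n) ∧ ∀ m, m < n → good1 m → x ∉ cbox (c m)}
  have hopenV : ∀ (g : ℕ → Prop) (n : ℕ),
      IsOpen {x : E3 | g n ∧ x ∈ box (c n) ∧ ∀ m, m < n → g m → x ∉ cbox (c m)} := by
    intro g n
    by_cases hg : g n
    · have : {x : E3 | g n ∧ x ∈ box (c n) ∧ ∀ m, m < n → g m → x ∉ cbox (c m)} =
        box (c n) ∩ ⋂ m ∈ {m | m < n ∧ g m}, (cbox (c m))ᶜ := by
        ext x; simp [hg]
      rw [this]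
      apply (isOpen_box _).inter
      apply Set.Finite.isOpen_biInter
      · exact (Set.finite_lt_nat n).subset (fun m hm => hm.1)
      · intro m _
        exact (isClosed_cbox _).isOpen_compl
    · have : {x : E3 | g n ∧ x ∈ box (c n) ∧ ∀ m, m < n → g m → x ∉ cbox (c m)} = ∅ := by
        ext x; simp [hg]
      rw [this]; exact isOpen_empty
  have hdisj : ∀ (g : ℕ → Prop) (n m : ℕ) (x : E3),
      (g n ∧ x ∈ box (c n) ∧ ∀ k, k < n → g k → x ∉ cbox (c k)) →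
      (g m ∧ x ∈ box (c m) ∧ ∀ k, k < m → g k → x ∉ cbox (c k)) → n = m := by
    intro g n m x hn hm
    rcases lt_trichotomy n m with h | h | h
    · exact absurd (box_subset_cbox _ hn.2.1) (hm.2.2 n h hn.1)
    · exact h
    · exact absurd (box_subset_cbox _ hm.2.1) (hn.2.2 m h hm.1)
  -- structure of points of Z
  have hZstruct : ∀ n, good n → ∀ x ∈ Z, x ∈ box (c n) →
      ∃ m, m < n ∧ ∃ j, x j = ((c m).1 j : ℝ) ∨ x j = ((c m).2 j : ℝ) := by
    intro n hn x hx hxn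
    have hex : ∃ k, good k ∧ x ∈ box (c k) := ⟨n, hn, hxn⟩
    have hk := Nat.find_spec hex
    have hkn : Nat.find hex ≤ n := Nat.find_min' hex ⟨hn, hxn⟩
    have hnot := hx.2 (Nat.find hex)
    have : ∃ m, m < Nat.find hex ∧ good m ∧ x ∈ cbox (c m) := by
      by_contra hno
      push Not at hno
      exact hnot ⟨hk.1, hk.2, fun m hm hgm => hno m hm hgm⟩
    obtain ⟨m, hm, hgm, hxm⟩ := this
    have hxm' : x ∉ box (c m) := fun h => Nat.find_min hex hm ⟨hgm, h⟩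
    refine ⟨m, lt_of_lt_of_le hm hkn, ?_⟩
    by_contra hno
    push Not at hno
    exact hxm' (fun i => ⟨lt_of_le_of_ne (hxm i).1 (Ne.symm (hno i).1),
      lt_of_le_of_ne (hxm i).2 (hno i).2⟩)
  have hZcov : ∀ y ∈ A, f y ∈ Z → ∃ n, f y ∈ V1 n := by
    intro y hy hyZ
    set z := f y with hz
    obtain ⟨n, hn, hzn⟩ := hgood y hy
    obtain ⟨m0, hm0, i, hi⟩ := hZstruct n hn z hyZ hzn
    have hrat : z i ∈ Set.range ((↑) : ℚ → ℝ) := by
      rcases hi with h | h <;> exact ⟨_, h.symm⟩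
    -- neighbourhoods
    have hS : ∀ j, (({v : ℝ | ∃ m, m < n ∧ (v = ((c m).1 j : ℝ) ∨ v = ((c m).2 j : ℝ))} \ {z j})ᶜ ∩
        Set.Ioo ((c n).1 j : ℝ) ((c n).2 j : ℝ)) ∈ nhds (z j) := by
      intro j
      apply Filter.inter_mem
      · apply IsOpen.mem_nhds
        · rw [isOpen_compl_iff]
          apply Set.Finite.isClosed
          apply Set.Finite.subset _ Set.sdiff_subset
          have : {v : ℝ | ∃ m, m < n ∧ (v = ((c m).1 j : ℝ) ∨ v = ((c m).2 j : ℝ))} ⊆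
            ((fun m => ((c m).1 j : ℝ)) '' {m | m < n}) ∪ ((fun m => ((c m).2 j : ℝ)) '' {m | m < n}) := by
            rintro v ⟨m, hm, h | h⟩
            · exact Or.inl ⟨m, hm, h.symm⟩
            · exact Or.inr ⟨m, hm, h.symm⟩
          exact (((Set.finite_lt_nat n).image _).union ((Set.finite_lt_nat n).image _)).subset this
        · simp
      · exact Ioo_mem_nhds (hzn j).1 (hzn j).2
    obtain ⟨d, hd1, hd2⟩ := exists_code hS
    obtain ⟨k, rfl⟩ := hc d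
    have hkgood : good k := by
      obtain ⟨U, hU1, hU2⟩ := hn
      refine ⟨U, hU1, fun y' hy' h => hU2 y' hy' ?_⟩
      intro j
      exact (hd2 _ (box_subset_cbox _ h) j).2
    have hk1 : good1 k := by
      refine ⟨hkgood, ?_⟩
      intro x hx hxk
      have hxn : x ∈ box (c n) := fun j => (hd2 x hxk j).2
      obtain ⟨m, hm, j, hj⟩ := hZstruct n hn x hx hxn
      have h1 := (hd2 x hxk j).1
      have h2 : x j = z j := by
        by_contra hne
        apply h1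
        exact ⟨⟨m, hm, hj⟩, hne⟩
      have hxrat : x j ∈ Set.range ((↑) : ℚ → ℝ) := by
        rcases hj with h | h <;> exact ⟨_, h.symm⟩
      intro i'
      by_cases hij : i' = j
      · subst hij
        rw [h2]; exact hd1 i'
      · have hirr := hx.1 j i' (Ne.symm hij) hxrat
        refine ⟨lt_of_le_of_ne (hxk i').1 ?_, lt_of_le_of_ne (hxk i').2 ?_⟩
        · intro h; exact hirr ⟨_, h⟩
        · intro h; exact hirr ⟨_, h.symm⟩
    have hex : ∃ n, good1 n ∧ z ∈ box (c n) := ⟨k, hk1, hd1⟩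
    refine ⟨Nat.find hex, (Nat.find_spec hex).1, (Nat.find_spec hex).2, ?_⟩
    intro m hm hgm hzm
    exact Nat.find_min hex hm ⟨hgm, hgm.2 z hyZ hzm⟩
  -- assignment
  have hasg : ∀ n, ∃ U, good n → U ∈ 𝒰 ∧ ∀ y ∈ A, f y ∈ box (c n) → y ∈ U := by
    intro n
    by_cases h : good n
    · obtain ⟨U, h1, h2⟩ := h
      exact ⟨U, fun _ => ⟨h1, h2⟩⟩
    · exact ⟨∅, fun h' => absurd h' h⟩
  choose asg hasg using hasg
  let M : (ℕ → Set E3) → Set E3 → Set E3 := fun V U => ⋃ n ∈ {n | asg n = U}, f ⁻¹' (V n)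
  have hM : ∀ (V : ℕ → Set E3) (U : Set E3) (x : E3), x ∈ M V U ↔ ∃ n, asg n = U ∧ f x ∈ V n := by
    intro V U x; simp [M]
  refine ⟨𝒰.image (M V0) ∪ 𝒰.image (M V1), ?_, ?_, ?_⟩
  · intro V hV
    rw [Finset.mem_union, Finset.mem_image, Finset.mem_image] at hV
    rcases hV with ⟨U, hUU, rfl⟩ | ⟨U, hUU, rfl⟩
    · refine ⟨?_, U, hUU, ?_⟩
      · exact isOpen_biUnion fun n _ => (hopenV good n).preimage hf
      · rintro x ⟨hx, hxA⟩
        rw [hM] at hx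
        obtain ⟨n, hn1, hn2⟩ := hx
        rw [← hn1]
        exact (hasg n hn2.1).2 x hxA hn2.2.1
    · refine ⟨?_, U, hUU, ?_⟩
      · exact isOpen_biUnion fun n _ => (hopenV good1 n).preimage hf
      · rintro x ⟨hx, hxA⟩
        rw [hM] at hx
        obtain ⟨n, hn1, hn2⟩ := hx
        rw [← hn1]
        exact (hasg n hn2.1.1).2 x hxA hn2.2.1
  · intro y hy
    by_cases h : ∃ n, f y ∈ V0 n
    · obtain ⟨n, hn⟩ := h
      refine ⟨M V0 (asg n), ?_, (hM _ _ _).2 ⟨n, rfl, hn⟩⟩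
      rw [Finset.mem_coe, Finset.mem_union, Finset.mem_image]
      exact Or.inl ⟨asg n, (hasg n hn.1).1, rfl⟩
    · push Not at h
      obtain ⟨n, hn⟩ := hZcov y hy ⟨hfA y hy, h⟩
      refine ⟨M V1 (asg n), ?_, (hM _ _ _).2 ⟨n, rfl, hn⟩⟩
      rw [Finset.mem_coe, Finset.mem_union, Finset.mem_image, Finset.mem_image]
      exact Or.inr ⟨asg n, (hasg n hn.1.1).1, rfl⟩
  · intro z hz
    have h0 : ∃ T0 : Set E3, ∀ U, z ∈ M V0 U → M V0 U = T0 := by
      by_cases h : ∃ n, f z ∈ V0 n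
      · obtain ⟨n, hn⟩ := h
        refine ⟨M V0 (asg n), ?_⟩
        intro U hzU
        rw [hM] at hzU
        obtain ⟨m, hm1, hm2⟩ := hzU
        have := hdisj good n m _ hn hm2
        subst this; rw [hm1]
      · refine ⟨∅, fun U hzU => ?_⟩
        rw [hM] at hzU
        obtain ⟨m, _, hm2⟩ := hzU
        exact absurd ⟨m, hm2⟩ h
    have h1 : ∃ T1 : Set E3, ∀ U, z ∈ M V1 U → M V1 U = T1 := by
      by_cases h : ∃ n, f z ∈ V1 n
      · obtain ⟨n, hn⟩ := h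
        refine ⟨M V1 (asg n), ?_⟩
        intro U hzU
        rw [hM] at hzU
        obtain ⟨m, hm1, hm2⟩ := hzU
        have := hdisj good1 n m _ hn hm2
        subst this; rw [hm1]
      · refine ⟨∅, fun U hzU => ?_⟩
        rw [hM] at hzU
        obtain ⟨m, _, hm2⟩ := hzU
        exact absurd ⟨m, hm2⟩ h
    obtain ⟨T0, hT0⟩ := h0
    obtain ⟨T1, hT1⟩ := h1
    have hsub : {V | V ∈ 𝒰.image (M V0) ∪ 𝒰.image (M V1) ∧ z ∈ V} ⊆ (({T0, T1} : Finset (Set E3)) : Set (Set E3)) := by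
      rintro V ⟨hV, hzV⟩
      rw [Finset.mem_union, Finset.mem_image, Finset.mem_image] at hV
      rcases hV with ⟨U, hUU, rfl⟩ | ⟨U, hUU, rfl⟩
      · simp [hT0 U hzV]
      · simp [hT1 U hzV]
    calc {V | V ∈ 𝒰.image (M V0) ∪ 𝒰.image (M V1) ∧ z ∈ V}.ncard
        ≤ (({T0, T1} : Finset (Set E3)) : Set (Set E3)).ncard :=
          Set.ncard_le_ncard hsub (Finset.finite_toSet _)
      _ = ({T0, T1} : Finset (Set E3)).card := Set.ncard_coe_finset _
      _ ≤ 2 := Finset.card_le_two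

end Pool.Agent.Helper648.Nobel
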