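import Mathlib

set_option autoImplicit false
set_option linter.unusedSectionVars false

namespace Pool.Agent.Helper648.LocalFun

open scoped InnerProductSpace

variable {E : Type*} [NormedAddCommGroup E] [InnerProductSpace ℝ E] [FiniteDimensional ℝ E]

theorem exists_seq (e : E) :
    ∃ q : ℕ → E, (∀ j, ⟪e, q j⟫_ℝ = 0 ∧ ‖q j‖ ≤ 1) ∧
      ∀ v : E, ⟪e, v⟫_ℝ = 0 → ‖v‖ ≤ 1 → ∀ ε > 0, ∀ J : ℕ, ∃ j ≥ J, ‖q j - v‖ < ε := by
  let D : Set E := {v | ⟪e, v⟫_ℝ = 0 ∧ ‖v‖ ≤ 1}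
  have : Nonempty D := ⟨⟨0, by simp [D]⟩⟩
  obtain ⟨d, hd⟩ := TopologicalSpace.exists_dense_seq D
  refine ⟨fun j => (d (Nat.unpair j).1 : E), fun j => (d _).2, ?_⟩
  intro v hv1 hv2 ε hε J
  obtain ⟨n, hn⟩ := hd.exists_dist_lt (⟨v, hv1, hv2⟩ : D) hε
  refine ⟨Nat.pair n J, Nat.right_le_pair n J, ?_⟩
  simp only [Nat.unpair_pair]
  rw [Subtype.dist_eq, dist_comm, dist_eq_norm] at hn
  exact hn

/-- penalty -/
noncomputable def pen (e d : E) : ℝ := ⟪e, d⟫_ℝ ^ 2 * (64 + ‖d‖ ^ 2)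

theorem pen_nonneg (e d : E) : 0 ≤ pen e d := by unfold pen; positivity

theorem continuous_pen (e : E) : Continuous (pen e) := by unfold pen; fun_prop

theorem pen_mid (e n k : E) :
    (pen e (n + k) + pen e (n - k)) / 2 - pen e n
      = ⟪e, k⟫_ℝ ^ 2 * (64 + ‖n‖ ^ 2 + ‖k‖ ^ 2) + ⟪e, n⟫_ℝ ^ 2 * ‖k‖ ^ 2
        + 4 * ⟪e, n⟫_ℝ * ⟪e, k⟫_ℝ * ⟪n, k⟫_ℝ := by
  unfold pen
  rw [norm_add_sq_real, norm_sub_sq_real, inner_add_right, inner_sub_right]
  ring

theorem pen_mid_ge (e n k : E) (hn : ‖n‖ ≤ 2) :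
    32 * ⟪e, k⟫_ℝ ^ 2 + ⟪e, n⟫_ℝ ^ 2 * ‖k‖ ^ 2 / 2
      ≤ (pen e (n + k) + pen e (n - k)) / 2 - pen e n := by
  rw [pen_mid]
  have h1 : |⟪n, k⟫_ℝ| ≤ ‖n‖ * ‖k‖ := abs_real_inner_le_norm n k
  set m := ⟪e, n⟫_ℝ
  set h := ⟪e, k⟫_ℝ
  set p := ⟪n, k⟫_ℝ
  have h2 : p ^ 2 ≤ 4 * ‖k‖ ^ 2 := by
    have : |p| ≤ 2 * ‖k‖ := le_trans h1 (mul_le_mul_of_nonneg_right hn (norm_nonneg _))
    calc p ^ 2 = |p| ^ 2 := (sq_abs p).symm
      _ ≤ (2 * ‖k‖) ^ 2 := by gcongr
      _ = 4 * ‖k‖ ^ 2 := by ring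
  -- 4 m h p ≥ - (32 h^2 + m^2 p^2 / 8) ≥ -(32 h^2 + m^2 ‖k‖^2/2)
  have h3 : 0 ≤ 32 * h ^ 2 + m ^ 2 * p ^ 2 / 8 + 4 * m * h * p := by
    have : 32 * h ^ 2 + m ^ 2 * p ^ 2 / 8 + 4 * m * h * p = (8 * h + m * p / 2) ^ 2 / 2 := by ring
    rw [this]; positivity
  have h4 : m ^ 2 * p ^ 2 ≤ m ^ 2 * (4 * ‖k‖ ^ 2) := mul_le_mul_of_nonneg_left h2 (sq_nonneg _)
  have h5 : 0 ≤ h ^ 2 * (‖n‖ ^ 2 + ‖k‖ ^ 2) := by positivity
  nlinarith

/-- generators -/
def G (e : E) (q : ℕ → E) : Set (E × ℝ) :=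
  {k | (∃ (j : ℕ) (σ : ℝ), (σ = 1 ∨ σ = -1) ∧ k = ((σ * (1/4)^j) • e + q j, (1/8)^j)) ∨
    (∃ v : E, ⟪e, v⟫_ℝ = 0 ∧ ‖v‖ ≤ 1 ∧ k = (v, 0))}

def K (e : E) (q : ℕ → E) : Set (E × ℝ) := closure (convexHull ℝ (G e q))

theorem G_subset_K (e : E) (q : ℕ → E) : G e q ⊆ K e q :=
  (subset_convexHull ℝ _).trans subset_closure

theorem K_min (e : E) (q : ℕ → E) {s : Set (E × ℝ)} (hs : Convex ℝ s) (hc : IsClosed s)
    (hG : G e q ⊆ s) : K e q ⊆ s := closure_minimal (convexHull_min hG hs) hc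

theorem convex_K (e : E) (q : ℕ → E) : Convex ℝ (K e q) := (convex_convexHull ℝ _).closure

section
variable {e : E} {q : ℕ → E} (he : ‖e‖ = 1) (hq : ∀ j, ⟪e, q j⟫_ℝ = 0 ∧ ‖q j‖ ≤ 1)
include he hq

theorem inner_self_e : ⟪e, e⟫_ℝ = 1 := by rw [real_inner_self_eq_norm_sq, he]; norm_num

theorem K_snd_nonneg : ∀ k ∈ K e q, 0 ≤ k.2 := by
  have : K e q ⊆ {k : E × ℝ | 0 ≤ k.2} := by
    apply K_min
    · exact convex_halfSpace_ge (f := fun k : E × ℝ => k.2) (IsLinearMap.mk (fun _ _ => rfl) (fun _ _ => rfl)) 0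
    · exact isClosed_le continuous_const continuous_snd
    · rintro k (⟨j, σ, _, rfl⟩ | ⟨v, _, _, rfl⟩)
      · simp only [Set.mem_ofPred_eq]; positivity
      · simp
  exact fun k hk => this hk

theorem K_perp : ∀ k ∈ K e q, ‖k.1 - ⟪e, k.1⟫_ℝ • e‖ ≤ 1 := by
  have hee := inner_self_e he hq
  have : K e q ⊆ {k : E × ℝ | ‖k.1 - ⟪e, k.1⟫_ℝ • e‖ ≤ 1} := by
    apply K_min
    · intro a ha b hb s t hs ht hst
      simp only [Set.mem_ofPred_eq] at *
      have : (s • a + t • b).1 - ⟪e, (s • a + t • b).1⟫_ℝ • e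
          = s • (a.1 - ⟪e, a.1⟫_ℝ • e) + t • (b.1 - ⟪e, b.1⟫_ℝ • e) := by
        simp only [Prod.fst_add, Prod.smul_fst, inner_add_right, inner_smul_right, smul_sub,
          add_smul, mul_smul]
        abel
      rw [this]
      calc ‖s • (a.1 - ⟪e, a.1⟫_ℝ • e) + t • (b.1 - ⟪e, b.1⟫_ℝ • e)‖
          ≤ ‖s • (a.1 - ⟪e, a.1⟫_ℝ • e)‖ + ‖t • (b.1 - ⟪e, b.1⟫_ℝ • e)‖ := norm_add_le _ _
        _ = s * ‖a.1 - ⟪e, a.1⟫_ℝ • e‖ + t * ‖b.1 - ⟪e, b.1⟫_ℝ • e‖ := by
            rw [norm_smul, norm_smul, Real.norm_of_nonneg hs, Real.norm_of_nonneg ht]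
        _ ≤ s * 1 + t * 1 := by gcongr
        _ = 1 := by linarith
    · apply isClosed_le _ continuous_const
      fun_prop
    · rintro k (⟨j, σ, _, rfl⟩ | ⟨v, hv1, hv2, rfl⟩)
      · simp only [Set.mem_ofPred_eq, inner_add_right, inner_smul_right, hee, (hq j).1]
        simpa using (hq j).2
      · simpa [hv1] using hv2
  exact fun k hk => this hk

theorem K_par : ∀ k ∈ K e q, |⟪e, k.1⟫_ℝ| ≤ 1 := by
  have hee := inner_self_e he hq
  have : K e q ⊆ {k : E × ℝ | |⟪e, k.1⟫_ℝ| ≤ 1} := by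
    apply K_min
    · intro a ha b hb s t hs ht hst
      simp only [Set.mem_ofPred_eq, Prod.fst_add, Prod.smul_fst, inner_add_right,
        inner_smul_right] at *
      rw [abs_le] at *
      constructor <;> nlinarith
    · apply isClosed_le _ continuous_const
      fun_prop
    · rintro k (⟨j, σ, hσ, rfl⟩ | ⟨v, hv1, hv2, rfl⟩)
      · simp only [Set.mem_ofPred_eq, inner_add_right, inner_smul_right, hee, (hq j).1]
        have h1 : ((1:ℝ)/4)^j ≤ 1 := pow_le_one₀ (by norm_num) (by norm_num)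
        have h0 : 0 ≤ ((1:ℝ)/4)^j := by positivity
        rw [abs_le]
        rcases hσ with rfl | rfl <;> constructor <;> linarith
      · simp [hv1]
  exact fun k hk => this hk

theorem K_norm : ∀ k ∈ K e q, ‖k.1‖ ≤ 2 := by
  intro k hk
  have h1 := K_perp he hq k hk
  have h2 := K_par he hq k hk
  calc ‖k.1‖ = ‖(k.1 - ⟪e, k.1⟫_ℝ • e) + ⟪e, k.1⟫_ℝ • e‖ := by rw [sub_add_cancel]
    _ ≤ ‖k.1 - ⟪e, k.1⟫_ℝ • e‖ + ‖⟪e, k.1⟫_ℝ • e‖ := norm_add_le _ _
    _ ≤ 1 + 1 := by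
        gcongr
        rw [norm_smul, he, mul_one, Real.norm_eq_abs]; exact h2
    _ = 2 := by norm_num

theorem K_snd_le : ∀ k ∈ K e q, k.2 ≤ 1 := by
  have : K e q ⊆ {k : E × ℝ | k.2 ≤ 1} := by
    apply K_min
    · exact convex_halfSpace_le (f := fun k : E × ℝ => k.2) (IsLinearMap.mk (fun _ _ => rfl) (fun _ _ => rfl)) 1
    · exact isClosed_le continuous_snd continuous_const
    · rintro k (⟨j, σ, _, rfl⟩ | ⟨v, _, _, rfl⟩)
      · simp only [Set.mem_ofPred_eq]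
        exact pow_le_one₀ (by norm_num) (by norm_num)
      · simp
  exact fun k hk => this hk

theorem isCompact_K : IsCompact (K e q) := by
  apply Metric.isCompact_of_isClosed_isBounded isClosed_closure
  apply (Metric.isBounded_closedBall (x := (0 : E × ℝ)) (r := 2)).subset
  intro k hk
  rw [mem_closedBall_zero_iff, Prod.norm_def, max_le_iff]
  refine ⟨K_norm he hq k hk, ?_⟩
  rw [Real.norm_eq_abs, abs_le]
  have := K_snd_nonneg he hq k hk
  have := K_snd_le he hq k hk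
  constructor <;> linarith

end

/-- objective -/
noncomputable def F (e : E) (x : E) (k : E × ℝ) : ℝ := ⟪k.1, x⟫_ℝ - k.2 - pen e k.1

theorem continuous_F (e x : E) : Continuous (F e x) := by
  unfold F
  have := continuous_pen e
  fun_prop

section
variable {e : E} {q : ℕ → E} (he : ‖e‖ = 1) (hq : ∀ j, ⟪e, q j⟫_ℝ = 0 ∧ ‖q j‖ ≤ 1)
include he hq

theorem max_unique {x : E} (hx : x ≠ 0) {k₁ k₂ : E × ℝ} (h₁ : k₁ ∈ K e q) (h₂ : k₂ ∈ K e q)
    (m₁ : ∀ k ∈ K e q, F e x k ≤ F e x k₁) (m₂ : ∀ k ∈ K e q, F e x k ≤ F e x k₂) :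
    k₁.1 = k₂.1 := by
  have hee := inner_self_e he hq
  -- midpoint
  set n : E := (1/2 : ℝ) • (k₁.1 + k₂.1) with hn
  set k : E := (1/2 : ℝ) • (k₁.1 - k₂.1) with hk
  have e1 : k₁.1 = n + k := by
    rw [hn, hk, ← smul_add]
    have : k₁.1 + k₂.1 + (k₁.1 - k₂.1) = (2:ℝ) • k₁.1 := by rw [two_smul]; abel
    rw [this, smul_smul]; norm_num
  have e2 : k₂.1 = n - k := by
    rw [hn, hk, ← smul_sub]
    have : k₁.1 + k₂.1 - (k₁.1 - k₂.1) = (2:ℝ) • k₂.1 := by rw [two_smul]; abel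
    rw [this, smul_smul]; norm_num
  have hmid : ((1/2 : ℝ) • k₁ + (1/2 : ℝ) • k₂) ∈ K e q :=
    convex_K e q h₁ h₂ (by norm_num) (by norm_num) (by norm_num)
  have hmid1 : ((1/2 : ℝ) • k₁ + (1/2 : ℝ) • k₂).1 = n := by
    simp [hn, smul_add]
  have hmid2 : ((1/2 : ℝ) • k₁ + (1/2 : ℝ) • k₂).2 = (k₁.2 + k₂.2) / 2 := by
    simp; ring
  have hnn : ‖n‖ ≤ 2 := by rw [← hmid1]; exact K_norm he hq _ hmid
  have a1 := m₁ _ hmid
  have a2 := m₂ _ hmid
  unfold F at a1 a2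
  rw [hmid1, hmid2] at a1 a2
  have hpen := pen_mid_ge e n k hnn
  rw [← e1, ← e2] at hpen
  have hin : ⟪n, x⟫_ℝ = (⟪k₁.1, x⟫_ℝ + ⟪k₂.1, x⟫_ℝ) / 2 := by
    rw [hn, real_inner_smul_left, inner_add_left]; ring
  rw [hin] at a1 a2
  have hle : 32 * ⟪e, k⟫_ℝ ^ 2 + ⟪e, n⟫_ℝ ^ 2 * ‖k‖ ^ 2 / 2 ≤ 0 := by linarith
  have hk0 : ⟪e, k⟫_ℝ = 0 := by
    have : 0 ≤ ⟪e, n⟫_ℝ ^ 2 * ‖k‖ ^ 2 := by positivity
    have h2 : ⟪e, k⟫_ℝ ^ 2 ≤ 0 := by linarith
    exact pow_eq_zero_iff (two_ne_zero) |>.1 (le_antisymm h2 (sq_nonneg _))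
  have hprod : ⟪e, n⟫_ℝ ^ 2 * ‖k‖ ^ 2 = 0 := by
    have : 0 ≤ ⟪e, n⟫_ℝ ^ 2 * ‖k‖ ^ 2 := by positivity
    rw [hk0] at hle
    nlinarith
  rcases mul_eq_zero.1 hprod with hn0 | hkk
  swap
  · have : k = 0 := by simpa using hkk
    rw [e1, e2, this]; simp
  have hn0' : ⟪e, n⟫_ℝ = 0 := by simpa using hn0
  -- both perpendicular
  have p1 : ⟪e, k₁.1⟫_ℝ = 0 := by rw [e1, inner_add_right, hn0', hk0]; simp
  have p2 : ⟪e, k₂.1⟫_ℝ = 0 := by rw [e2, inner_sub_right, hn0', hk0]; simp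
  set y : E := x - ⟪e, x⟫_ℝ • e with hy
  have hxy : x = ⟪e, x⟫_ℝ • e + y := by rw [hy]; abel
  have hey : ⟪e, y⟫_ℝ = 0 := by rw [hy, inner_sub_right, inner_smul_right, hee]; ring
  have hFval : ∀ k' : E × ℝ, ⟪e, k'.1⟫_ℝ = 0 → F e x k' = ⟪k'.1, y⟫_ℝ - k'.2 := by
    intro k' hk'
    unfold F pen
    rw [hk']
    conv_lhs => rw [hxy]
    rw [inner_add_right, inner_smul_right, real_inner_comm e k'.1, hk']
    ring
  by_cases hy0 : y = 0
  · exfalso
    have ht : ⟪e, x⟫_ℝ ≠ 0 := by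
      intro h; apply hx; rw [hxy, hy0, h]; simp
    have hF1 : F e x k₁ ≤ 0 := by
      rw [hFval k₁ p1, hy0, inner_zero_right]
      have := K_snd_nonneg he hq k₁ h₁
      linarith
    have habs : 0 < |⟪e, x⟫_ℝ| := abs_pos.2 ht
    -- choose j
    obtain ⟨j, hj⟩ := exists_pow_lt_of_lt_one (show 0 < |⟪e, x⟫_ℝ| / 69 by positivity)
      (show (1/2 : ℝ) < 1 by norm_num)
    obtain ⟨σ, hσ, hσt⟩ : ∃ σ : ℝ, (σ = 1 ∨ σ = -1) ∧ σ * ⟪e, x⟫_ℝ = |⟪e, x⟫_ℝ| := by
      rcases le_total 0 ⟪e, x⟫_ℝ with h | h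
      · exact ⟨1, Or.inl rfl, by rw [abs_of_nonneg h]; ring⟩
      · exact ⟨-1, Or.inr rfl, by rw [abs_of_nonpos h]; ring⟩
    have hmem : (((σ * (1/4)^j) • e + q j, (1/8)^j) : E × ℝ) ∈ K e q :=
      G_subset_K e q (Or.inl ⟨j, σ, hσ, rfl⟩)
    have b1 := m₁ _ hmem
    have b2 := K_norm he hq _ hmem
    simp only at b2
    have hxe : x = ⟪e, x⟫_ℝ • e := by rw [hy0, add_zero] at hxy; exact hxy
    have c1 : ⟪(σ * (1/4)^j) • e + q j, x⟫_ℝ = |⟪e, x⟫_ℝ| * (1/4)^j := by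
      conv_lhs => rw [hxe]
      rw [inner_smul_right, inner_add_left, real_inner_smul_left, hee, real_inner_comm e (q j),
        (hq j).1, ← hσt]
      ring
    have c2 : ⟪e, (σ * (1/4)^j) • e + q j⟫_ℝ = σ * (1/4)^j := by
      rw [inner_add_right, inner_smul_right, hee, (hq j).1]; ring
    have c3 : pen e ((σ * (1/4)^j) • e + q j) ≤ 68 * (1/16)^j := by
      unfold pen
      rw [c2]
      have hs2 : σ ^ 2 = 1 := by rcases hσ with rfl | rfl <;> norm_num
      have : (σ * (1/4)^j)^2 = (1/16)^j := by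
        rw [mul_pow, hs2, one_mul, ← pow_mul, mul_comm, pow_mul]; norm_num
      rw [this]
      have : ‖(σ * (1/4)^j) • e + q j‖ ^ 2 ≤ 4 := by nlinarith [norm_nonneg ((σ * (1/4)^j) • e + q j)]
      have h16 : (0:ℝ) < (1/16)^j := by positivity
      nlinarith
    unfold F at b1
    simp only at b1
    rw [c1] at b1
    have b3 : ⟪k₁.1, x⟫_ℝ - k₁.2 - pen e k₁.1 ≤ 0 := hF1
    set P : ℝ := (1/2)^j with hP
    have hP0 : 0 < P := by positivity
    have hP1 : P ≤ 1 := pow_le_one₀ (by norm_num) (by norm_num)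
    have i4 : ((1:ℝ)/4)^j = P^2 := by rw [hP, ← pow_mul, mul_comm, pow_mul]; norm_num
    have i8 : ((1:ℝ)/8)^j = P^3 := by rw [hP, ← pow_mul, mul_comm, pow_mul]; norm_num
    have i16 : ((1:ℝ)/16)^j = P^4 := by rw [hP, ← pow_mul, mul_comm, pow_mul]; norm_num
    rw [i16] at c3
    rw [i4, i8] at b1
    rw [i4] at c3
    have d1 : |⟪e, x⟫_ℝ| * P^2 ≤ P^3 + 68 * P^4 := by linarith
    have d2 : 69 * P < |⟪e, x⟫_ℝ| := by rw [lt_div_iff₀ (by norm_num)] at hj; linarith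
    have d3 : 69 * P * P^2 < |⟪e, x⟫_ℝ| * P^2 := mul_lt_mul_of_pos_right d2 (by positivity)
    have d4 : P^4 ≤ P^3 := pow_le_pow_of_le_one hP0.le hP1 (by norm_num)
    have d5 : 69 * P * P^2 = P^3 + 68 * P^3 := by ring
    linarith
  · -- y ≠ 0
    have hypos : 0 < ‖y‖ := norm_pos_iff.2 hy0
    set v : E := (‖y‖⁻¹) • y with hv
    have hvn : ‖v‖ = 1 := by
      rw [hv, norm_smul, norm_inv, norm_norm, inv_mul_cancel₀ hypos.ne']
    have hev : ⟪e, v⟫_ℝ = 0 := by rw [hv, inner_smul_right, hey]; ring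
    have hmem : ((v, 0) : E × ℝ) ∈ K e q := G_subset_K e q (Or.inr ⟨v, hev, hvn.le, rfl⟩)
    have hFv : F e x (v, 0) = ‖y‖ := by
      rw [hFval _ hev]
      simp only [sub_zero]
      rw [hv, real_inner_smul_left, real_inner_self_eq_norm_sq]
      field_simp
    have gen : ∀ k' ∈ K e q, ⟪e, k'.1⟫_ℝ = 0 → (∀ k ∈ K e q, F e x k ≤ F e x k') → k'.1 = v := by
      intro k' hk' hk'e hmax
      have g1 := hmax _ hmem
      rw [hFv, hFval k' hk'e] at g1
      have g2 := K_snd_nonneg he hq k' hk'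
      have g3 : ‖k'.1‖ ≤ 1 := by
        have := K_perp he hq k' hk'
        rw [hk'e] at this
        simpa using this
      have g4 : 1 ≤ ⟪k'.1, v⟫_ℝ := by
        rw [hv, inner_smul_right]
        rw [← inv_mul_cancel₀ hypos.ne']
        apply mul_le_mul_of_nonneg_left _ (by positivity)
        linarith
      have g5 : ‖k'.1 - v‖ ^ 2 ≤ 0 := by
        rw [norm_sub_sq_real, hvn]
        nlinarith [norm_nonneg k'.1]
      have g6 : ‖k'.1 - v‖ = 0 := by
        have := sq_nonneg (‖k'.1 - v‖)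
        exact pow_eq_zero_iff (two_ne_zero) |>.1 (le_antisymm g5 this)
      exact sub_eq_zero.1 (norm_eq_zero.1 g6)
    rw [gen k₁ h₁ p1 m₁, gen k₂ h₂ p2 m₂]

/-- key cluster estimate -/
theorem max_near {j : ℕ} {k' : E × ℝ} (hk' : k' ∈ K e q)
    (hmax : ∀ k ∈ K e q, F e ((2 * (1/2)^j : ℝ) • e) k ≤ F e ((2 * (1/2)^j : ℝ) • e) k') :
    ‖k'.1 - q j‖ ≤ 545 * (1/2)^j := by
  have hee := inner_self_e he hq
  set P : ℝ := (1/2)^j with hP
  have hP0 : 0 < P := by positivity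
  have hP1 : P ≤ 1 := pow_le_one₀ (by norm_num) (by norm_num)
  have i4 : ((1:ℝ)/4)^j = P^2 := by rw [hP, ← pow_mul, mul_comm, pow_mul]; norm_num
  have i8 : ((1:ℝ)/8)^j = P^3 := by rw [hP, ← pow_mul, mul_comm, pow_mul]; norm_num
  set dj : E := ((1 * (1/4)^j : ℝ)) • e + q j with hdj
  have hmemj : ((dj, (1/8)^j) : E × ℝ) ∈ K e q := G_subset_K e q (Or.inl ⟨j, 1, Or.inl rfl, rfl⟩)
  have hejd : ⟪e, dj⟫_ℝ = P^2 := by
    rw [hdj, inner_add_right, inner_smul_right, hee, (hq j).1, i4]; ring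
  have hnj := K_norm he hq _ hmemj
  simp only at hnj
  -- the linear inequality on K
  have hlin : K e q ⊆ {k : E × ℝ | ‖k.1 - dj‖ * P^3 - 8 * (P^3 - (2 * P * ⟪e, k.1⟫_ℝ - k.2)) ≤ 0} := by
    apply K_min
    · intro a ha b hb s t hs ht hst
      simp only [Set.mem_ofPred_eq] at *
      have e1 : (s • a + t • b).1 - dj = s • (a.1 - dj) + t • (b.1 - dj) := by
        have : dj = (s + t) • dj := by rw [hst, one_smul]
        simp only [Prod.fst_add, Prod.smul_fst, smul_sub]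
        conv_lhs => rw [this, add_smul]
        abel
      have e2 : ‖(s • a + t • b).1 - dj‖ ≤ s * ‖a.1 - dj‖ + t * ‖b.1 - dj‖ := by
        rw [e1]
        refine (norm_add_le _ _).trans ?_
        rw [norm_smul, norm_smul, Real.norm_of_nonneg hs, Real.norm_of_nonneg ht]
      have e3 : ⟪e, (s • a + t • b).1⟫_ℝ = s * ⟪e, a.1⟫_ℝ + t * ⟪e, b.1⟫_ℝ := by
        simp only [Prod.fst_add, Prod.smul_fst, inner_add_right, inner_smul_right]
      have e4 : (s • a + t • b).2 = s * a.2 + t * b.2 := by simp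
      rw [e3, e4]
      have e5 : ‖(s • a + t • b).1 - dj‖ * P^3 ≤ (s * ‖a.1 - dj‖ + t * ‖b.1 - dj‖) * P^3 :=
        mul_le_mul_of_nonneg_right e2 (by positivity)
      have e6 := mul_nonpos_of_nonneg_of_nonpos hs ha
      have e7 := mul_nonpos_of_nonneg_of_nonpos ht hb
      have e8 : (1:ℝ) = s + t := hst.symm
      have e9 : P^3 = s * P^3 + t * P^3 := by rw [← add_mul, hst, one_mul]
      nlinarith
    · apply isClosed_le _ continuous_const
      fun_prop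
    · have big : ∀ k ∈ G e q, 2 * P * ⟪e, k.1⟫_ℝ - k.2 ≤ P^3 / 2 →
          ‖k.1 - dj‖ * P^3 - 8 * (P^3 - (2 * P * ⟪e, k.1⟫_ℝ - k.2)) ≤ 0 := by
        intro k hk h
        have h1 := K_norm he hq _ (G_subset_K e q hk)
        have h2 : ‖k.1 - dj‖ ≤ 4 := by
          refine (norm_sub_le _ _).trans ?_
          linarith
        have h3 : ‖k.1 - dj‖ * P^3 ≤ 4 * P^3 := mul_le_mul_of_nonneg_right h2 (by positivity)
        linarith
      intro k hk
      rw [Set.mem_ofPred_eq]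
      have hk0 := hk
      rcases hk with ⟨i, σ, hσ, rfl⟩ | ⟨v, hv1, hv2, rfl⟩
      · set X : ℝ := (1/2)^i with hX
        have hX0 : 0 < X := by positivity
        have x4 : ((1:ℝ)/4)^i = X^2 := by rw [hX, ← pow_mul, mul_comm, pow_mul]; norm_num
        have x8 : ((1:ℝ)/8)^i = X^3 := by rw [hX, ← pow_mul, mul_comm, pow_mul]; norm_num
        have hin : ⟪e, (σ * (1/4)^i) • e + q i⟫_ℝ = σ * X^2 := by
          rw [inner_add_right, inner_smul_right, hee, (hq i).1, x4]; ring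
        rcases hσ with rfl | rfl
        · by_cases hij : i = j
          · subst hij
            simp only at *
            rw [hin, x8]
            rw [← hdj]
            simp only [sub_self, norm_zero, zero_mul]
            have : X = P := rfl
            rw [this]
            have : 8 * (P ^ 3 - (2 * P * (1 * P ^ 2) - P ^ 3)) = 0 := by ring
            linarith
          · apply big _ hk0
            simp only
            rw [hin, x8]
            rcases lt_or_gt_of_ne hij with h | h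
            · -- i < j : X ≥ 2 P
              have h1 : 2 * P ≤ X := by
                rw [hP, hX]
                have : (1/2:ℝ)^j ≤ (1/2)^(i+1) := pow_le_pow_of_le_one (by norm_num) (by norm_num) h
                rw [pow_succ] at this
                linarith
              have h2 : 2 * P * (1 * X^2) - X^3 ≤ 0 := by
                have : 2 * P * (1 * X^2) - X^3 = -(X^2 * (X - 2 * P)) := by ring
                rw [this]
                have : 0 ≤ X^2 * (X - 2*P) := mul_nonneg (by positivity) (by linarith)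
                linarith
              have : 0 < P^3 := by positivity
              linarith
            · -- j < i : X ≤ P / 2
              have h1 : X ≤ P / 2 := by
                rw [hP, hX]
                have : (1/2:ℝ)^i ≤ (1/2)^(j+1) := pow_le_pow_of_le_one (by norm_num) (by norm_num) h
                rw [pow_succ] at this
                linarith
              have h2 : X^2 ≤ (P/2)^2 := by gcongr
              have h3 : 0 < X^3 := by positivity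
              have h4 : 2 * P * X^2 ≤ 2 * P * (P/2)^2 := mul_le_mul_of_nonneg_left h2 (by positivity)
              have h5 : 2 * P * (P/2)^2 = P^3/2 := by ring
              linarith
        · apply big _ hk0
          simp only
          rw [hin, x8]
          have h1 : 0 < P * X^2 := by positivity
          have h2 : 0 < X^3 := by positivity
          have h3 : 0 < P^3 := by positivity
          linarith
      · apply big _ hk0
        simp only
        rw [hv1]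
        have h3 : 0 < P^3 := by positivity
        linarith
  have h1 := hlin hk'
  simp only [Set.mem_ofPred_eq] at h1
  have h2 := hmax _ hmemj
  unfold F at h2
  simp only at h2
  rw [inner_smul_right, inner_smul_right, real_inner_comm e dj, real_inner_comm e k'.1, hejd, i8] at h2
  have h3 : pen e dj ≤ 68 * P^4 := by
    unfold pen
    rw [hejd]
    have : ‖dj‖^2 ≤ 4 := by nlinarith [norm_nonneg dj]
    have h4 : (P^2)^2 = P^4 := by ring
    rw [h4]
    have h5 : 0 < P^4 := by positivity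
    nlinarith
  have h4 := pen_nonneg e k'.1
  have h5 : ‖k'.1 - dj‖ * P^3 ≤ 544 * P * P^3 := by
    have : P * P^3 = P^4 := by ring
    nlinarith
  have h6 : ‖k'.1 - dj‖ ≤ 544 * P := le_of_mul_le_mul_right h5 (by positivity)
  have h7 : k'.1 - q j = (k'.1 - dj) + (P^2) • e := by
    rw [hdj, i4, one_mul]; abel
  rw [h7]
  refine (norm_add_le _ _).trans ?_
  rw [norm_smul, he, mul_one, Real.norm_of_nonneg (by positivity)]
  have h8 : P^2 ≤ P := by nlinarith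
  linarith

end

theorem local_fun (e : E) (he : ‖e‖ = 1) :
    ∃ (φ : E → ℝ) (u : E → E), φ 0 = 0 ∧ (∀ x x', φ x + ⟪u x, x' - x⟫_ℝ ≤ φ x') ∧
      (∀ x, ‖u x‖ ≤ 2) ∧ (∀ x, x ≠ 0 → ContinuousAt u x) ∧
      (∀ v : E, ⟪e, v⟫_ℝ = 0 → ‖v‖ ≤ 1 → ∀ ε > 0, ∀ J : ℕ,
        ∃ j ≥ J, ‖u ((2 * (1/2)^j : ℝ) • e) - v‖ < ε) := by
  obtain ⟨q, hq, hdense⟩ := exists_seq e
  have hcomp := isCompact_K he hq
  have hne : (K e q).Nonempty := ⟨(0, 0), G_subset_K e q (Or.inr ⟨0, by simp, by simp, rfl⟩)⟩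
  have hmax : ∀ x : E, ∃ k ∈ K e q, ∀ k' ∈ K e q, F e x k' ≤ F e x k := by
    intro x
    obtain ⟨k, hk, hk'⟩ := hcomp.exists_isMaxOn hne (continuous_F e x).continuousOn
    exact ⟨k, hk, fun k' h => hk' h⟩
  choose κ hκ hκmax using hmax
  have hFx : ∀ (x x' : E) (k : E × ℝ), F e x' k = F e x k + ⟪k.1, x' - x⟫_ℝ := by
    intro x x' k
    unfold F
    rw [inner_sub_right]; ring
  refine ⟨fun x => F e x (κ x) - F e 0 (κ 0), fun x => (κ x).1, by simp, ?_, ?_, ?_, ?_⟩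
  · intro x x'
    have h1 := hκmax x' (κ x) (hκ x)
    rw [hFx x x' (κ x)] at h1
    simp only
    linarith
  · intro x
    exact K_norm he hq _ (hκ x)
  · intro x hx
    rw [Metric.continuousAt_iff]
    intro ε hε
    -- compact set of far away points
    set C : Set (E × ℝ) := K e q ∩ {k | ε ≤ ‖k.1 - (κ x).1‖} with hC
    have hCc : IsCompact C := by
      apply hcomp.inter_right
      apply isClosed_le continuous_const
      fun_prop
    by_cases hCe : C.Nonempty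
    · obtain ⟨k₀, hk₀, hk₀max⟩ := hCc.exists_isMaxOn hCe (continuous_F e x).continuousOn
      have hlt : F e x k₀ < F e x (κ x) := by
        apply lt_of_le_of_ne (hκmax x k₀ hk₀.1)
        intro heq
        have := max_unique he hq hx hk₀.1 (hκ x) (fun k hk => by rw [heq]; exact hκmax x k hk)
          (hκmax x)
        have h2 := hk₀.2
        simp only [Set.mem_ofPred_eq, this, sub_self, norm_zero] at h2
        linarith
      refine ⟨(F e x (κ x) - F e x k₀) / 4, by linarith, ?_⟩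
      intro x' hx'
      rw [dist_eq_norm] at hx' ⊢
      by_contra hcon
      push Not at hcon
      have hmem : κ x' ∈ C := ⟨hκ x', hcon⟩
      have h1 : F e x (κ x') ≤ F e x k₀ := hk₀max hmem
      have h2 := hκmax x' (κ x) (hκ x)
      rw [hFx x x' (κ x), hFx x x' (κ x')] at h2
      have h3 : |⟪(κ x).1, x' - x⟫_ℝ| ≤ 2 * ‖x' - x‖ :=
        (abs_real_inner_le_norm _ _).trans
          (mul_le_mul_of_nonneg_right (K_norm he hq _ (hκ x)) (norm_nonneg _))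
      have h4 : |⟪(κ x').1, x' - x⟫_ℝ| ≤ 2 * ‖x' - x‖ :=
        (abs_real_inner_le_norm _ _).trans
          (mul_le_mul_of_nonneg_right (K_norm he hq _ (hκ x')) (norm_nonneg _))
      rw [abs_le] at h3 h4
      linarith
    · refine ⟨1, one_pos, fun x' _ => ?_⟩
      rw [dist_eq_norm]
      by_contra hcon
      push Not at hcon
      exact hCe ⟨κ x', hκ x', hcon⟩
  · intro v hv1 hv2 ε hε J
    obtain ⟨J', hJ'⟩ := exists_pow_lt_of_lt_one (show 0 < ε / 2 / 545 by positivity)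
      (show (1/2 : ℝ) < 1 by norm_num)
    obtain ⟨j, hj, hjv⟩ := hdense v hv1 hv2 (ε/2) (by positivity) (max J J')
    refine ⟨j, le_trans (le_max_left _ _) hj, ?_⟩
    have h1 := max_near he hq (hκ ((2 * (1/2)^j : ℝ) • e)) (hκmax _)
    have h2 : (1/2:ℝ)^j ≤ (1/2)^J' :=
      pow_le_pow_of_le_one (by norm_num) (by norm_num) (le_trans (le_max_right _ _) hj)
    have h3 : 545 * (1/2:ℝ)^j < ε / 2 := by
      rw [lt_div_iff₀ (by norm_num)] at hJ'
      linarith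
    calc ‖(κ ((2 * (1/2)^j : ℝ) • e)).1 - v‖
        = ‖((κ ((2 * (1/2)^j : ℝ) • e)).1 - q j) + (q j - v)‖ := by rw [sub_add_sub_cancel]
      _ ≤ ‖(κ ((2 * (1/2)^j : ℝ) • e)).1 - q j‖ + ‖q j - v‖ := norm_add_le _ _
      _ < ε := by linarith

end Pool.Agent.Helper648.LocalFun
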