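import Mathlib
import Pool.Agent.Helper648.LocalFun
import Pool.Agent.Helper648.Blow

set_option autoImplicit false
set_option linter.unusedSectionVars false

namespace Pool.Agent.Helper648.Sum

open scoped InnerProductSpace
open Filter Topology

variable {E : Type*} [NormedAddCommGroup E] [InnerProductSpace ℝ E] [FiniteDimensional ℝ E]

theorem exists_sum {ι : Type*} [Countable ι] (s : ι → E) (hs : Function.Injective s) (e : ι → E)
    (he : ∀ k, ‖e k‖ = 1) :
    ∃ (Ψ : E → ℝ) (v : E → E) (M : ℝ), (∀ x x', Ψ x + ⟪v x, x' - x⟫_ℝ ≤ Ψ x') ∧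
      (∀ x, ‖v x‖ ≤ M) ∧ (∀ x, (∀ k, x ≠ s k) → ContinuousAt v x) ∧
      (∀ k, ∃ (c : E) (ρ : ℝ), 0 < ρ ∧ ∀ w : E, ⟪e k, w⟫_ℝ = 0 → ‖w‖ ≤ 1 → ∀ δ > 0,
        ∃ j : ℕ, 2 * (1/2 : ℝ)^j < δ ∧
          ‖(s k + (2 * (1/2 : ℝ)^j) • e k + v (s k + (2 * (1/2 : ℝ)^j) • e k)) - (c + ρ • w)‖ < δ) := by
  classical
  have : CompleteSpace E := FiniteDimensional.complete ℝ E
  letI := Encodable.ofCountable ι
  choose φ u hφ0 hsub hub hcont hclus using fun k => LocalFun.local_fun (e k) (he k)
  obtain ⟨ε', hε'pos, c', hc', hc'1⟩ := posSumOfEncodable (one_pos) ι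
  have hsum' : Summable ε' := hc'.summable
  let ε : ι → ℝ := fun k => ε' k / (1 + ‖s k‖)
  have hεpos : ∀ k, 0 < ε k := fun k => div_pos (hε'pos k) (by positivity)
  have hεle : ∀ k, ε k * (1 + ‖s k‖) = ε' k := fun k => by
    simp only [ε]; field_simp
  have hεle' : ∀ k, ε k ≤ ε' k := fun k => by
    rw [← hεle k]
    have := hεpos k
    nlinarith [norm_nonneg (s k)]
  have hφlip : ∀ k z, |φ k z| ≤ 2 * ‖z‖ := by
    intro k z
    have := Blow.lip (hsub k) (hub k) 0 z
    rw [hφ0 k, sub_zero, sub_zero] at this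
    exact this
  have hsumv : ∀ x, Summable (fun k => ε k • u k (x - s k)) := by
    intro x
    apply Summable.of_norm_bounded (g := fun k => ε' k * 2) (hsum'.mul_right 2)
    intro k
    rw [norm_smul, Real.norm_of_nonneg (hεpos k).le]
    exact mul_le_mul (hεle' k) (hub k _) (norm_nonneg _) (hε'pos k).le
  have hsumΨ : ∀ x, Summable (fun k => ε k * φ k (x - s k)) := by
    intro x
    apply Summable.of_norm_bounded (g := fun k => ε' k * (2 * (1 + ‖x‖))) (hsum'.mul_right _)
    intro k
    rw [Real.norm_eq_abs, abs_mul, abs_of_pos (hεpos k)]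
    have h1 := hφlip k (x - s k)
    have h2 : ‖x - s k‖ ≤ ‖x‖ + ‖s k‖ := norm_sub_le _ _
    have h3 : ‖x‖ + ‖s k‖ ≤ (1 + ‖x‖) * (1 + ‖s k‖) := by
      nlinarith [norm_nonneg x, norm_nonneg (s k), mul_nonneg (norm_nonneg x) (norm_nonneg (s k))]
    calc ε k * |φ k (x - s k)| ≤ ε k * (2 * ((1 + ‖x‖) * (1 + ‖s k‖))) := by
          apply mul_le_mul_of_nonneg_left _ (hεpos k).le
          linarith
      _ = (ε k * (1 + ‖s k‖)) * (2 * (1 + ‖x‖)) := by ring
      _ = ε' k * (2 * (1 + ‖x‖)) := by rw [hεle k]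
  let Ψ : E → ℝ := fun x => ∑' k, ε k * φ k (x - s k)
  let v : E → E := fun x => ∑' k, ε k • u k (x - s k)
  refine ⟨Ψ, v, ∑' k, ε' k * 2, ?_, ?_, ?_, ?_⟩
  · intro x x'
    have h1 : HasSum (fun k => ⟪x' - x, ε k • u k (x - s k)⟫_ℝ) ⟪x' - x, v x⟫_ℝ :=
      (hsumv x).hasSum.mapL (innerSL ℝ (x' - x))
    have h2 := (hsumΨ x).hasSum.add h1
    have h3 := (hsumΨ x').hasSum
    rw [real_inner_comm]
    refine hasSum_le ?_ h2 h3
    intro k
    have h4 := hsub k (x - s k) (x' - s k)
    have e1 : x' - s k - (x - s k) = x' - x := by abel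
    rw [e1] at h4
    rw [inner_smul_right, real_inner_comm, ← mul_add]
    exact mul_le_mul_of_nonneg_left h4 (hεpos k).le
  · intro x
    refine tsum_of_norm_bounded (hsum'.mul_right 2).hasSum ?_
    intro k
    rw [norm_smul, Real.norm_of_nonneg (hεpos k).le]
    exact mul_le_mul (hεle' k) (hub k _) (norm_nonneg _) (hε'pos k).le
  · intro x hx
    apply tendsto_tsum_of_dominated_convergence (bound := fun k => ε' k * 2) (hsum'.mul_right 2)
    · intro k
      apply Tendsto.const_smul
      have hc : ContinuousAt (fun y : E => u k (y - s k)) x := by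
        apply ContinuousAt.comp (g := u k) (f := fun y : E => y - s k)
        · exact hcont k _ (sub_ne_zero.2 (hx k))
        · fun_prop
      exact hc
    · filter_upwards with y k
      rw [norm_smul, Real.norm_of_nonneg (hεpos k).le]
      exact mul_le_mul (hεle' k) (hub k _) (norm_nonneg _) (hε'pos k).le
  · intro k
    let t : ℕ → ℝ := fun j => 2 * (1/2 : ℝ)^j
    have ht : Tendsto t atTop (𝓝 0) := by
      have := (tendsto_pow_atTop_nhds_zero_of_lt_one (r := (1/2:ℝ)) (by norm_num) (by norm_num)).const_mul 2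
      simpa [t] using this
    have hx : Tendsto (fun j => s k + t j • e k) atTop (𝓝 (s k)) := by
      have : Tendsto (fun j => s k + t j • e k) atTop (𝓝 (s k + (0:ℝ) • e k)) :=
        tendsto_const_nhds.add (ht.smul_const (e k))
      simpa using this
    let W : E → E := fun x => ∑' l, (if l = k then 0 else ε l • u l (x - s l))
    have hW : Tendsto (fun j => W (s k + t j • e k)) atTop (𝓝 (W (s k))) := by
      apply tendsto_tsum_of_dominated_convergence (bound := fun k => ε' k * 2) (hsum'.mul_right 2)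
      · intro l
        by_cases hlk : l = k
        · simp [hlk]
        · simp only [hlk, if_false]
          apply Tendsto.const_smul
          have hc : ContinuousAt (u l) (s k - s l) :=
            hcont l _ (sub_ne_zero.2 (fun h => hlk (hs h.symm)))
          exact hc.tendsto.comp (hx.sub_const (s l))
      · filter_upwards with j l
        by_cases hlk : l = k
        · simp only [hlk, if_true, norm_zero]
          exact mul_nonneg (hε'pos k).le (by norm_num)
        · simp only [hlk, if_false]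
          rw [norm_smul, Real.norm_of_nonneg (hεpos l).le]
          exact mul_le_mul (hεle' l) (hub l _) (norm_nonneg _) (hε'pos l).le
    have hsplit : ∀ x, v x = ε k • u k (x - s k) + W x := by
      intro x
      exact (hsumv x).tsum_eq_add_tsum_ite k
    refine ⟨s k + W (s k), ε k, hεpos k, ?_⟩
    intro w hw1 hw2 δ hδ
    have h1 : ∀ᶠ j in atTop, t j < δ / 4 := ht.eventually_lt_const (by positivity)
    have h2 : ∀ᶠ j in atTop, ‖W (s k + t j • e k) - W (s k)‖ < δ / 4 := by
      have := (tendsto_iff_norm_sub_tendsto_zero.1 hW)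
      exact this.eventually_lt_const (by positivity)
    obtain ⟨J, hJ⟩ := (h1.and h2).exists_forall_of_atTop
    obtain ⟨j, hjJ, hj⟩ := hclus k w hw1 hw2 (δ / (4 * ε k)) (by have := hεpos k; positivity) J
    obtain ⟨g1, g2⟩ := hJ j hjJ
    refine ⟨j, ?_, ?_⟩
    · have : t j < δ / 4 := g1
      simp only [t] at this
      linarith
    · change ‖(s k + t j • e k + v (s k + t j • e k)) - (s k + W (s k) + ε k • w)‖ < δ
      have htj0 : 0 ≤ t j := by simp only [t]; positivity
      have e1 : (s k + t j • e k + v (s k + t j • e k)) - (s k + W (s k) + ε k • w)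
          = t j • e k + ε k • (u k (t j • e k) - w) + (W (s k + t j • e k) - W (s k)) := by
        rw [hsplit, add_sub_cancel_left, smul_sub]
        abel
      rw [e1]
      have n1 : ‖t j • e k‖ < δ / 4 := by
        rw [norm_smul, he k, mul_one, Real.norm_of_nonneg htj0]; exact g1
      have n2 : ‖ε k • (u k (t j • e k) - w)‖ < δ / 4 := by
        rw [norm_smul, Real.norm_of_nonneg (hεpos k).le]
        have hj' : ‖u k (t j • e k) - w‖ < δ / (4 * ε k) := hj
        rw [lt_div_iff₀ (by have := hεpos k; positivity)] at hj'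
        linarith
      calc ‖t j • e k + ε k • (u k (t j • e k) - w) + (W (s k + t j • e k) - W (s k))‖
          ≤ ‖t j • e k‖ + ‖ε k • (u k (t j • e k) - w)‖ + ‖W (s k + t j • e k) - W (s k)‖ :=
            norm_add₃_le
        _ < δ := by linarith

end Pool.Agent.Helper648.Sum
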