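import Mathlib
import Pool.Agent.Helper648.Square
import Pool.Agent.Helper648.Nobel
import Pool.Agent.Helper648.Sum

set_option autoImplicit false
set_option linter.unusedSectionVars false

namespace Pool.Agent.Helper648.Frame

open scoped InnerProductSpace
open Filter Topology
open Pool.Agent.Helper648.Nobel (E3 N)

/-- coordinate vectors -/
noncomputable def b (i : Fin 3) : E3 := EuclideanSpace.single i (1:ℝ)

theorem norm_b (i : Fin 3) : ‖b i‖ = 1 := by simp [b]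

theorem inner_b (i : Fin 3) (v : E3) : ⟪b i, v⟫_ℝ = v i := by
  simp [b, EuclideanSpace.inner_single_left]

theorem b_apply (i j : Fin 3) : b i j = if j = i then 1 else 0 := by
  simp [b, Pi.single_apply]

/-- blow-up points for direction `i` -/
def S (i : Fin 3) : Set E3 :=
  {x | (∃ r : ℚ, r ≠ 0 ∧ x i = √2 * r) ∧ ∀ j, j ≠ i → x j ∈ Set.range ((↑) : ℚ → ℝ)}

theorem sqrt2_mul_rat_irr {r : ℚ} (hr : r ≠ 0) : √2 * (r:ℝ) ∉ Set.range ((↑) : ℚ → ℝ) := by
  have := irrational_sqrt_two.mul_ratCast hr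
  exact this

theorem S_disj {i j : Fin 3} {x : E3} (hi : x ∈ S i) (hj : x ∈ S j) : i = j := by
  by_contra h
  obtain ⟨r, hr, hx⟩ := hi.1
  have := hj.2 i h
  rw [hx] at this
  exact sqrt2_mul_rat_irr hr this

theorem shift_not_S {i : Fin 3} {s : E3} (hs : s ∈ S i) {t : ℚ} (ht : t ≠ 0) (j : Fin 3) :
    s + (t:ℝ) • b i ∉ S j := by
  intro h
  obtain ⟨r, hr, hx⟩ := hs.1
  by_cases hij : j = i
  · subst hij
    obtain ⟨r', hr', hx'⟩ := h.1
    have e1 : (s + (t:ℝ) • b j) j = s j + t := by simp [b_apply]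
    rw [e1, hx] at hx'
    have e2 : √2 * ((r' - r : ℚ) : ℝ) = t := by push_cast; linarith
    by_cases h0 : r' - r = 0
    · rw [h0] at e2; simp at e2; exact ht (by exact_mod_cast e2.symm)
    · exact sqrt2_mul_rat_irr h0 ⟨t, e2.symm⟩
  · obtain ⟨r', hr', hx'⟩ := h.1
    have e1 : (s + (t:ℝ) • b i) j = s j := by simp [b_apply, hij]
    rw [e1] at hx'
    have := hs.2 j hij
    rw [hx'] at this
    exact sqrt2_mul_rat_irr hr' this

theorem countable_S : (⋃ i, S i).Countable := by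
  let g : (Fin 3 → ℚ) × (Fin 3 → ℚ) → E3 := fun c =>
    WithLp.toLp 2 (fun i => (c.1 i : ℝ) + √2 * c.2 i)
  apply (Set.countable_range g).mono
  intro x hx
  obtain ⟨i, hi⟩ := Set.mem_iUnion.1 hx
  have : ∀ j, ∃ p q : ℚ, x j = (p:ℝ) + √2 * q := by
    intro j
    by_cases hj : j = i
    · subst hj
      obtain ⟨r, _, h⟩ := hi.1
      exact ⟨0, r, by rw [h]; simp⟩
    · obtain ⟨p, hp⟩ := hi.2 j hj
      exact ⟨p, 0, by rw [← hp]; simp⟩
  choose p q hpq using this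
  refine ⟨(p, q), ?_⟩
  ext j
  simp [g, hpq j]

theorem exists_frame : ∃ f : E3 → E3, Continuous f ∧ Function.Surjective f ∧
    (∃ M : ℝ, ∀ y, ‖y - f y‖ ≤ M) ∧
    (∀ y y', f y = f y' → (∀ i, f y ∉ S i) → y = y') ∧
    (∀ i, ∀ s ∈ S i, ∃ (c : E3) (ρ : ℝ), 0 < ρ ∧ ∀ w : E3, w i = 0 → ‖w‖ ≤ 1 → ∀ δ > 0,
      ∃ (y : E3) (t : ℝ), 0 < t ∧ t < δ ∧ f y = s + t • b i ∧ (∀ j, f y ∉ S j) ∧
        ‖y - (c + ρ • w)‖ < δ) := by
  classical
  let ι := {x : E3 // x ∈ ⋃ i, S i}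
  have : Countable ι := countable_S.to_subtype
  choose d hd using fun k : ι => Set.mem_iUnion.1 k.2
  obtain ⟨Ψ, v, M, hsub, hM, hcont, hclus⟩ := Sum.exists_sum (ι := ι) (fun k => k.1)
    Subtype.val_injective (fun k => b (d k)) (fun k => norm_b _)
  obtain ⟨f, hf⟩ := Blow.exists_resolvent hsub hM
  refine ⟨f, Blow.f_cont hsub hM hf, fun x => ⟨_, Blow.f_inv hsub hM hf x⟩,
    ⟨M, Blow.f_near hsub hM hf⟩, ?_, ?_⟩
  · intro y y' hyy' hS
    have hc : ContinuousAt v (f y) := by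
      apply hcont
      rintro k hk
      obtain ⟨i, hi⟩ := Set.mem_iUnion.1 k.2
      rw [hk] at hS
      exact hS i hi
    rw [Blow.f_unique hsub hM hf rfl hc, Blow.f_unique hsub hM hf hyy'.symm hc]
  · intro i s hs
    let k : ι := ⟨s, Set.mem_iUnion.2 ⟨i, hs⟩⟩
    have hdk : d k = i := S_disj (hd k) hs
    obtain ⟨c, ρ, hρ, h⟩ := hclus k
    refine ⟨c, ρ, hρ, ?_⟩
    intro w hw1 hw2 δ hδ
    obtain ⟨j, hj1, hj2⟩ := h w (by rw [inner_b, hdk]; exact hw1) hw2 δ hδ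
    simp only [hdk] at hj2
    have hfy := Blow.f_inv hsub hM hf (s + (2 * (1/2 : ℝ)^j) • b i)
    refine ⟨_, 2 * (1/2 : ℝ)^j, by positivity, hj1, hfy, ?_, hj2⟩
    intro j'
    rw [hfy]
    have h2 : (2 * (1/2 : ℝ)^j) = (((2 * (1/2 : ℚ)^j : ℚ)) : ℝ) := by push_cast; rfl
    rw [h2]
    exact shift_not_S hs (by positivity) j'

theorem third : ∀ j k : Fin 3, j ≠ k → ∃ i : Fin 3, ∀ m, m ≠ i → m = j ∨ m = k := by decide

theorem others : ∀ i : Fin 3, ∃ j k : Fin 3, j ≠ i ∧ k ≠ i ∧ j ≠ k := by decide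

/-- a non-degenerate connected compactum missing the Noebeling set contains a segment of a
rational line, relatively open. -/
theorem exists_segment (P : Set E3) (hP : IsCompact P) (hconn : IsPreconnected P)
    (hPN : ∀ x ∈ P, x ∉ N) {x y : E3} (hx : x ∈ P) (hy : y ∈ P) (hxy : x ≠ y) :
    ∃ (i : Fin 3) (p : E3) (τ₁ τ₂ : ℝ), (∀ j, j ≠ i → p j ∈ Set.range ((↑) : ℚ → ℝ)) ∧
      τ₁ < τ₂ ∧ ∀ τ, τ₁ < τ → τ < τ₂ → p + τ • b i ∈ P := by
  classical
  have : CompactSpace P := isCompact_iff_compactSpace.1 hP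
  have : Nonempty P := ⟨⟨x, hx⟩⟩
  let L : Fin 3 × (Fin 3 → ℚ) → Set E3 := fun c => {z | ∀ j, j ≠ c.1 → z j = c.2 j}
  have hLc : ∀ c, IsClosed (L c) := by
    intro c
    have : L c = ⋂ j, ⋂ (_ : j ≠ c.1), {z : E3 | z j = c.2 j} := by
      ext z; simp [L]
    rw [this]
    exact isClosed_iInter fun j => isClosed_iInter fun _ =>
      isClosed_eq (Nobel.cont_coord j) continuous_const
  obtain ⟨c, hc⟩ := nonempty_interior_of_iUnion_of_closed (X := P)
    (f := fun c => Subtype.val ⁻¹' (L c)) (fun c => (hLc c).preimage continuous_subtype_val) (by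
      ext z
      simp only [Set.mem_iUnion, Set.mem_preimage, Set.mem_univ, iff_true]
      have hz := hPN z.1 z.2
      have : ∃ j k, j ≠ k ∧ z.1 j ∈ Set.range ((↑) : ℚ → ℝ) ∧ z.1 k ∈ Set.range ((↑) : ℚ → ℝ) := by
        by_contra hcon
        apply hz
        intro j k hjk hj hk
        exact hcon ⟨j, k, hjk, hj, hk⟩
      obtain ⟨j, k, hjk, ⟨rj, hrj⟩, ⟨rk, hrk⟩⟩ := this
      obtain ⟨i, hi⟩ := third j k hjk
      refine ⟨(i, fun m => if m = j then rj else rk), ?_⟩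
      intro m hm
      rcases hi m hm with rfl | rfl
      · simp [hrj]
      · simp [Ne.symm hjk, hrk])
  obtain ⟨p0, hp0⟩ := hc
  obtain ⟨i, r⟩ := c
  rw [mem_interior_iff_mem_nhds, mem_nhds_subtype] at hp0
  obtain ⟨W, hW, hWL⟩ := hp0
  obtain ⟨η, hη, hball⟩ := Metric.mem_nhds_iff.1 hW
  obtain ⟨p, hpP⟩ := p0
  simp only at hW hball
  -- points of P in the ball are on the line
  have hline : ∀ z ∈ P, ‖z - p‖ < η → z = p + (z i - p i) • b i := by
    intro z hz hzη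
    have h1 : (⟨z, hz⟩ : P) ∈ Subtype.val ⁻¹' W := hball (by rw [Metric.mem_ball, dist_eq_norm]; exact hzη)
    have h2 := hWL h1
    have h3 : (⟨p, hpP⟩ : P) ∈ Subtype.val ⁻¹' W := hball (Metric.mem_ball_self hη)
    have h4 := hWL h3
    ext j
    by_cases hj : j = i
    · subst hj; simp [b_apply]
    · have e1 : z j = r j := h2 j hj
      have e2 : p j = r j := h4 j hj
      simp [b_apply, hj, e1, e2]
  have hpr : ∀ j, j ≠ i → p j ∈ Set.range ((↑) : ℚ → ℝ) := by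
    intro j hj
    have h3 : (⟨p, hpP⟩ : P) ∈ Subtype.val ⁻¹' W := hball (Metric.mem_ball_self hη)
    have h4 := hWL h3
    exact ⟨r j, (h4 j hj).symm⟩
  by_cases hA : ∀ τ, 0 < τ → τ < η / 2 → p + τ • b i ∈ P
  · exact ⟨i, p, 0, η/2, hpr, by positivity, hA⟩
  by_cases hB : ∀ τ, -(η / 2) < τ → τ < 0 → p + τ • b i ∈ P
  · exact ⟨i, p, -(η/2), 0, hpr, by linarith, hB⟩
  push Not at hA hB
  obtain ⟨τp, hτp0, hτp1, hτpP⟩ := hA
  obtain ⟨τm, hτm0, hτm1, hτmP⟩ := hB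
  -- clopen piece
  have hlam : Continuous (fun τ : ℝ => p + τ • b i) := by fun_prop
  let T : Set E3 := (fun τ : ℝ => p + τ • b i) '' Set.Icc τm τp
  have hTc : IsClosed T := (isCompact_Icc.image hlam).isClosed
  let O : Set E3 := Metric.ball p η ∩ {z | τm < z i - p i ∧ z i - p i < τp}
  have hOo : IsOpen O := by
    apply Metric.isOpen_ball.inter
    have h1 : IsOpen {z : E3 | τm < z i - p i} :=
      isOpen_lt continuous_const ((Nobel.cont_coord i).sub continuous_const)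
    have h2 : IsOpen {z : E3 | z i - p i < τp} :=
      isOpen_lt ((Nobel.cont_coord i).sub continuous_const) continuous_const
    exact h1.inter h2
  have hOT : ∀ z ∈ P, z ∈ O ↔ z ∈ T := by
    intro z hz
    constructor
    · rintro ⟨h1, h2, h3⟩
      rw [Metric.mem_ball, dist_eq_norm] at h1
      exact ⟨z i - p i, ⟨h2.le, h3.le⟩, (hline z hz h1).symm⟩
    · rintro ⟨τ, ⟨h1, h2⟩, rfl⟩
      simp only at hz ⊢
      have h3 : τ ≠ τm := fun h => hτmP (h ▸ hz)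
      have h4 : τ ≠ τp := fun h => hτpP (h ▸ hz)
      have h5 : τm < τ := lt_of_le_of_ne h1 (Ne.symm h3)
      have h6 : τ < τp := lt_of_le_of_ne h2 h4
      refine ⟨?_, ?_, ?_⟩
      · rw [Metric.mem_ball, dist_eq_norm, add_sub_cancel_left, norm_smul, norm_b, mul_one,
          Real.norm_eq_abs, abs_lt]
        constructor <;> linarith
      · simp [b_apply, h5]
      · simp [b_apply, h6]
  have hPT : P ⊆ T := by
    by_contra hcon
    rw [Set.not_subset] at hcon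
    obtain ⟨z, hzP, hzT⟩ := hcon
    have := hconn O Tᶜ hOo hTc.isOpen_compl (by
      intro a ha
      by_cases haT : a ∈ T
      · exact Or.inl ((hOT a ha).2 haT)
      · exact Or.inr haT) ⟨p, hpP, by
        refine ⟨Metric.mem_ball_self hη, ?_, ?_⟩ <;> simp [hτm1, hτp0]⟩ ⟨z, hzP, hzT⟩
    obtain ⟨a, haP, haO, haT⟩ := this
    exact haT ((hOT a haP).1 haO)
  -- coordinates
  have hcoord : ∀ z ∈ P, z = p + (z i - p i) • b i := by
    intro z hz
    obtain ⟨τ, _, rfl⟩ := hPT hz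
    simp [b_apply]
  have hne : x i ≠ y i := by
    intro h
    apply hxy
    rw [hcoord x hx, hcoord y hy, h]
  have himg : IsPreconnected ((fun z : E3 => z i) '' P) :=
    hconn.image _ (Nobel.cont_coord i).continuousOn
  have hord : Set.OrdConnected ((fun z : E3 => z i) '' P) := himg.ordConnected
  have main : ∀ x ∈ P, ∀ y ∈ P, x i < y i → ∀ τ, x i - p i < τ → τ < y i - p i → p + τ • b i ∈ P := by
    intro x hx y hy _ τ h1 h2
    have hmem : p i + τ ∈ (fun z : E3 => z i) '' P :=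
      hord.out ⟨x, hx, rfl⟩ ⟨y, hy, rfl⟩ ⟨by simp only; linarith, by simp only; linarith⟩
    obtain ⟨z, hz, hzi⟩ := hmem
    have h3 := hcoord z hz
    have h4 : z i - p i = τ := by simp only at hzi; rw [hzi]; ring
    rw [h4] at h3
    rw [← h3]; exact hz
  rcases lt_or_gt_of_ne hne with h | h
  · exact ⟨i, p, x i - p i, y i - p i, hpr, by linarith, main x hx y hy h⟩
  · exact ⟨i, p, y i - p i, x i - p i, hpr, by linarith, main y hy x hx h⟩

/-- choose a nonzero rational `r` with `√2 r` in an interval -/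
theorem exists_sqrt_rat {a c : ℝ} (h : a < c) : ∃ r : ℚ, r ≠ 0 ∧ a < √2 * r ∧ √2 * r < c := by
  have h2 : (0:ℝ) < √2 := by positivity
  have h1 : a / √2 < c / √2 := div_lt_div_of_pos_right h h2
  obtain ⟨r, hr1, hr2⟩ := exists_rat_btwn h1
  by_cases hr : r = 0
  · obtain ⟨r', hr1', hr2'⟩ := exists_rat_btwn hr2
    refine ⟨r', ?_, ?_, ?_⟩
    · rintro rfl
      rw [hr] at hr1'
      exact lt_irrefl _ hr1'
    · have := lt_trans hr1 hr1'
      rw [div_lt_iff₀ h2] at this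
      linarith
    · rw [lt_div_iff₀ h2] at hr2'
      linarith
  · refine ⟨r, hr, ?_, ?_⟩
    · rw [div_lt_iff₀ h2] at hr1; linarith
    · rw [lt_div_iff₀ h2] at hr2; linarith

/-- a connected compactum in the complement of `f ⁻¹ N` with nondegenerate image contains a
flat two-dimensional disc. -/
theorem exists_disc {f : E3 → E3} (hf : Continuous f)
    (huniq : ∀ y y', f y = f y' → (∀ i, f y ∉ S i) → y = y')
    (hclus : ∀ i, ∀ s ∈ S i, ∃ (c : E3) (ρ : ℝ), 0 < ρ ∧ ∀ w : E3, w i = 0 → ‖w‖ ≤ 1 → ∀ δ > 0,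
      ∃ (y : E3) (t : ℝ), 0 < t ∧ t < δ ∧ f y = s + t • b i ∧ (∀ j, f y ∉ S j) ∧
        ‖y - (c + ρ • w)‖ < δ)
    (C : Set E3) (hC : IsCompact C) (hconn : IsPreconnected C) (hCN : ∀ y ∈ C, f y ∉ N)
    {x y : E3} (hx : x ∈ C) (hy : y ∈ C) (hxy : f x ≠ f y) :
    ∃ (i : Fin 3) (c : E3) (ρ : ℝ), 0 < ρ ∧ ∀ w : E3, w i = 0 → ‖w‖ ≤ 1 → c + ρ • w ∈ C := by
  obtain ⟨i, p, τ₁, τ₂, hpr, hτ, hseg⟩ := exists_segment (f '' C) (hC.image hf)
    (hconn.image f hf.continuousOn) (by rintro _ ⟨z, hz, rfl⟩; exact hCN z hz)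
    ⟨x, hx, rfl⟩ ⟨y, hy, rfl⟩ hxy
  obtain ⟨r, hr, hr1, hr2⟩ := exists_sqrt_rat (show p i + τ₁ < p i + τ₂ by linarith)
  set τ₀ : ℝ := √2 * r - p i with hτ₀
  set s : E3 := p + τ₀ • b i with hs
  have hsS : s ∈ S i := by
    refine ⟨⟨r, hr, ?_⟩, ?_⟩
    · simp [hs, hτ₀, b_apply]
    · intro j hj
      have : s j = p j := by simp [hs, b_apply, hj]
      rw [this]; exact hpr j hj
  obtain ⟨c, ρ, hρ, h⟩ := hclus i s hsS
  refine ⟨i, c, ρ, hρ, ?_⟩
  intro w hw1 hw2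
  rw [← hC.isClosed.closure_eq, Metric.mem_closure_iff]
  intro ε hε
  obtain ⟨y', t, ht0, ht1, hfy, hyS, hclose⟩ := h w hw1 hw2 (min ε (τ₂ - τ₀)) (lt_min hε (by linarith))
  have hmem : f y' ∈ f '' C := by
    rw [hfy, hs, add_assoc, ← add_smul]
    apply hseg
    · linarith
    · have := lt_of_lt_of_le ht1 (min_le_right _ _)
      linarith
  obtain ⟨z, hz, hzf⟩ := hmem
  have : y' = z := huniq y' z hzf.symm hyS
  refine ⟨z, hz, ?_⟩
  rw [← this, dist_comm, dist_eq_norm]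
  exact lt_of_lt_of_le hclose (min_le_left _ _)

/-- such a disc prevents covering dimension at most one -/
theorem no_dim_one (C : Set E3) (hC : IsCompact C) {i : Fin 3} {c : E3} {ρ : ℝ} (hρ : 0 < ρ)
    (hdisc : ∀ w : E3, w i = 0 → ‖w‖ ≤ 1 → c + ρ • w ∈ C)
    (hdim : ∀ 𝒰 : Finset (Set E3), (∀ U ∈ 𝒰, IsOpen U) → C ⊆ ⋃₀ (↑𝒰 : Set (Set E3)) →
      ∃ 𝒱 : Finset (Set E3), (∀ V ∈ 𝒱, IsOpen V ∧ ∃ U ∈ 𝒰, V ∩ C ⊆ U) ∧
        C ⊆ ⋃₀ (↑𝒱 : Set (Set E3)) ∧ ∀ z ∈ C, {V | V ∈ 𝒱 ∧ z ∈ V}.ncard ≤ 2) : False := by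
  classical
  obtain ⟨j, k, hji, hki, hjk⟩ := others i
  obtain ⟨t, _, htfin, htcov⟩ := hC.finite_cover_balls (e := ρ/2) (by positivity)
  obtain ⟨𝒱, h1, h2, h3⟩ := hdim (htfin.toFinset.image (fun z => Metric.ball z (ρ/2))) (by
      intro U hU
      rw [Finset.mem_image] at hU
      obtain ⟨z, _, rfl⟩ := hU
      exact Metric.isOpen_ball) (by
      intro z hz
      obtain ⟨a, ha, hza⟩ := Set.mem_iUnion₂.1 (htcov hz)
      refine ⟨Metric.ball a (ρ/2), ?_, hza⟩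
      rw [Finset.mem_coe, Finset.mem_image]
      exact ⟨a, by simpa using ha, rfl⟩)
  let κ : ℝ × ℝ → E3 := fun q => c + ρ • ((q.1 - 1/2) • b j + (q.2 - 1/2) • b k)
  have hκ : Continuous κ := by fun_prop
  have hκC : ∀ q ∈ Set.Icc (0:ℝ) 1 ×ˢ Set.Icc (0:ℝ) 1, κ q ∈ C := by
    rintro ⟨q1, q2⟩ ⟨⟨h11, h12⟩, ⟨h21, h22⟩⟩
    simp only at h11 h12 h21 h22
    apply hdisc
    · simp [b_apply, Ne.symm hji, Ne.symm hki]
    · refine (norm_add_le _ _).trans ?_
      rw [norm_smul, norm_smul, norm_b, norm_b, mul_one, mul_one, Real.norm_eq_abs,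
        Real.norm_eq_abs]
      have e1 : |q1 - 1/2| ≤ 1/2 := by rw [abs_le]; constructor <;> linarith
      have e2 : |q2 - 1/2| ≤ 1/2 := by rw [abs_le]; constructor <;> linarith
      linarith
  have hcoordj : ∀ q, κ q j = c j + ρ * (q.1 - 1/2) := by
    intro q; simp [κ, b_apply, hjk]
  have hcoordk : ∀ q, κ q k = c k + ρ * (q.2 - 1/2) := by
    intro q; simp [κ, b_apply, Ne.symm hjk]
  have hsmall : ∀ V ∈ 𝒱, ∀ q q', κ q ∈ C → κ q' ∈ C → κ q ∈ V → κ q' ∈ V →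
      dist (κ q) (κ q') < ρ := by
    intro V hV q q' hq hq' hqV hq'V
    obtain ⟨_, U, hU, hVU⟩ := h1 V hV
    rw [Finset.mem_image] at hU
    obtain ⟨z, _, rfl⟩ := hU
    have a1 := hVU ⟨hqV, hq⟩
    have a2 := hVU ⟨hq'V, hq'⟩
    rw [Metric.mem_ball] at a1 a2
    calc dist (κ q) (κ q') ≤ dist (κ q) z + dist z (κ q') := dist_triangle _ _ _
      _ < ρ := by rw [dist_comm z]; linarith
  have hcoordle : ∀ (x y : E3) (m : Fin 3), |x m - y m| ≤ dist x y := by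
    intro x y m
    rw [dist_eq_norm]
    have := PiLp.norm_apply_le (x - y) m
    simpa using this
  refine Square.no_order_two κ hκ 𝒱 (fun V hV => (h1 V hV).1) ?_ ?_ ?_ ?_
  · intro q hq
    obtain ⟨V, hV, hqV⟩ := h2 (hκC q hq)
    exact ⟨V, hV, hqV⟩
  · intro V hV s hs t ht hsV htV
    have hd := hsmall V hV _ _ (hκC (0, s) ⟨by simp, hs⟩) (hκC (1, t) ⟨by simp, ht⟩) hsV htV
    have := hcoordle (κ (0, s)) (κ (1, t)) j
    rw [hcoordj, hcoordj] at this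
    simp only at this
    have e2 : c j + ρ * (0 - 1/2) - (c j + ρ * (1 - 1/2)) = -ρ := by ring
    rw [e2, abs_neg, abs_of_pos hρ] at this
    linarith
  · intro V hV s hs t ht hsV htV
    have hd := hsmall V hV _ _ (hκC (s, 0) ⟨hs, by simp⟩) (hκC (t, 1) ⟨ht, by simp⟩) hsV htV
    have := hcoordle (κ (s, 0)) (κ (t, 1)) k
    rw [hcoordk, hcoordk] at this
    simp only at this
    have e2 : c k + ρ * (0 - 1/2) - (c k + ρ * (1 - 1/2)) = -ρ := by ring
    rw [e2, abs_neg, abs_of_pos hρ] at this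
    linarith
  · intro q hq
    exact h3 _ (hκC q hq)

theorem S_not_N {i : Fin 3} {x : E3} (hx : x ∈ S i) : x ∉ N := by
  intro h
  obtain ⟨j, k, hji, hki, hjk⟩ := others i
  exact h j k hjk (hx.2 j hji) (hx.2 k hki)

theorem inv_nhds {f : E3 → E3} (hf : Continuous f) {M : ℝ} (hM : ∀ y, ‖y - f y‖ ≤ M)
    (huniq : ∀ y y', f y = f y' → (∀ i, f y ∉ S i) → y = y') :
    ∀ y ∈ f ⁻¹' N, ∀ U : Set E3, IsOpen U → y ∈ U →
      ∃ W : Set E3, IsOpen W ∧ f y ∈ W ∧ ∀ y' ∈ f ⁻¹' N, f y' ∈ W → y' ∈ U := by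
  intro y hy U hU hyU
  let K : Set E3 := Metric.closedBall (f y) (M + 1) ∩ Uᶜ
  have hK : IsCompact K := (isCompact_closedBall _ _).inter_right hU.isClosed_compl
  have hKc : IsClosed (f '' K) := (hK.image hf).isClosed
  refine ⟨Metric.ball (f y) 1 ∩ (f '' K)ᶜ, Metric.isOpen_ball.inter hKc.isOpen_compl,
    ⟨Metric.mem_ball_self one_pos, ?_⟩, ?_⟩
  · rintro ⟨z, hz, hzf⟩
    have : y = z := huniq y z hzf.symm (fun i hi => S_not_N hi hy)
    subst this
    exact hz.2 hyU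
  · rintro y' _ ⟨h1, h2⟩
    by_contra hcon
    apply h2
    refine ⟨y', ⟨?_, hcon⟩, rfl⟩
    rw [Metric.mem_ball, dist_eq_norm] at h1
    rw [Metric.mem_closedBall, dist_eq_norm]
    calc ‖y' - f y‖ = ‖(y' - f y') + (f y' - f y)‖ := by rw [sub_add_sub_cancel]
      _ ≤ ‖y' - f y'‖ + ‖f y' - f y‖ := norm_add_le _ _
      _ ≤ M + 1 := by have := hM y'; linarith

end Pool.Agent.Helper648.Frame
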