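import Mathlib
import Pool.Agent.Helper648.Cube

set_option autoImplicit false

namespace Pool.Agent.Helper648.Maz

open Metric

abbrev E3 := EuclideanSpace ℝ (Fin 3)
abbrev T := ℝ × ℝ × ℝ

/-- extension of a relatively open subset of `B` -/
def ext (B V : Set E3) : Set E3 := {x | infEDist x (B ∩ V) < infEDist x (B \ V)}

theorem isOpen_ext (B V : Set E3) : IsOpen (ext B V) :=
  isOpen_lt continuous_infEDist continuous_infEDist

theorem mem_ext {B V : Set E3} (hV : IsOpen V) {x : E3} (hxB : x ∈ B) (hxV : x ∈ V) :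
    x ∈ ext B V := by
  have h1 : infEDist x (B ∩ V) = 0 := infEDist_zero_of_mem ⟨hxB, hxV⟩
  have h2 : 0 < infEDist x (B \ V) := by
    rw [infEDist_pos_iff_notMem_closure]
    intro h
    rw [_root_.mem_closure_iff] at h
    obtain ⟨y, hy1, hy2⟩ := h V hV hxV
    exact hy2.2 hy1
  change infEDist x (B ∩ V) < infEDist x (B \ V)
  rw [h1]; exact h2

theorem ext_triple {B V₁ V₂ V₃ : Set E3} (h : B ∩ V₁ ∩ V₂ ∩ V₃ = ∅) {x : E3}
    (h1 : x ∈ ext B V₁) (h2 : x ∈ ext B V₂) (h3 : x ∈ ext B V₃) : False := by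
  have hB : B = (B \ V₁) ∪ ((B \ V₂) ∪ (B \ V₃)) := by
    ext y
    constructor
    · intro hy
      by_contra hcon
      have : y ∈ B ∩ V₁ ∩ V₂ ∩ V₃ := by
        simp only [Set.mem_union, Set.mem_sdiff, not_or, not_and, not_not] at hcon
        exact ⟨⟨⟨hy, hcon.1 hy⟩, hcon.2.1 hy⟩, hcon.2.2 hy⟩
      rw [h] at this
      exact this
    · rintro (hy | hy | hy) <;> exact hy.1
  have hmin : infEDist x B = infEDist x (B \ V₁) ⊓ (infEDist x (B \ V₂) ⊓ infEDist x (B \ V₃)) := by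
    conv_lhs => rw [hB]
    rw [infEDist_union, infEDist_union]
  have g1 : infEDist x B < infEDist x (B \ V₁) :=
    lt_of_le_of_lt (infEDist_anti Set.inter_subset_left) h1
  have g2 : infEDist x B < infEDist x (B \ V₂) :=
    lt_of_le_of_lt (infEDist_anti Set.inter_subset_left) h2
  have g3 : infEDist x B < infEDist x (B \ V₃) :=
    lt_of_le_of_lt (infEDist_anti Set.inter_subset_left) h3
  have : infEDist x B < infEDist x B := by
    conv_rhs => rw [hmin]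
    exact lt_inf_iff.2 ⟨g1, lt_inf_iff.2 ⟨g2, g3⟩⟩
  exact lt_irrefl _ this

/-- parametrisation of the big cube -/
noncomputable def κ (R : ℝ) (p : T) : E3 :=
  WithLp.toLp 2 ![R * (2 * p.1 - 1), R * (2 * p.2.1 - 1), R * (2 * p.2.2 - 1)]

theorem κ0 (R : ℝ) (p : T) : κ R p 0 = R * (2 * p.1 - 1) := by simp [κ]
theorem κ1 (R : ℝ) (p : T) : κ R p 1 = R * (2 * p.2.1 - 1) := by simp [κ]
theorem κ2 (R : ℝ) (p : T) : κ R p 2 = R * (2 * p.2.2 - 1) := by simp [κ]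

theorem κ_cont (R : ℝ) : Continuous (κ R) := by
  unfold κ
  apply (PiLp.continuous_toLp 2 _).comp
  apply continuous_pi
  intro i
  fin_cases i <;> simp <;> fun_prop

theorem exists_continuum (B : Set E3) {R : ℝ} (hR : 0 < R)
    (hB : ∀ 𝒰 : Finset (Set E3), (∀ U ∈ 𝒰, IsOpen U) → B ⊆ ⋃₀ (↑𝒰 : Set (Set E3)) →
      ∃ 𝒱 : Finset (Set E3), (∀ V ∈ 𝒱, IsOpen V ∧ ∃ U ∈ 𝒰, V ∩ B ⊆ U) ∧
        B ⊆ ⋃₀ (↑𝒱 : Set (Set E3)) ∧
        (∀ V₁ ∈ 𝒱, ∀ V₂ ∈ 𝒱, ∀ V₃ ∈ 𝒱, V₁ ≠ V₂ → V₁ ≠ V₃ → V₂ ≠ V₃ →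
          B ∩ V₁ ∩ V₂ ∩ V₃ = ∅)) :
    ∃ C : Set E3, IsCompact C ∧ IsPreconnected C ∧ C ⊆ Bᶜ ∧ (∃ x ∈ C, x 2 = -R) ∧
      (∃ y ∈ C, y 2 = R) := by
  classical
  have cc : ∀ i : Fin 3, Continuous (fun x : E3 => x i) := by intro i; fun_prop
  -- the four sets
  let A : Bool → Fin 3 → Set E3 := fun a i => if a then {x | x i < R} else {x | -R < x i}
  have hA : ∀ a i, IsOpen (A a i) := by
    intro a i
    cases a
    · simp only [A, Bool.false_eq_true, if_false]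
      exact isOpen_lt continuous_const (cc i)
    · simp only [A, if_true]
      exact isOpen_lt (cc i) continuous_const
  have hAcov : ∀ (x : E3) (i : Fin 3), ∃ a, x ∈ A a i := by
    intro x i
    rcases lt_or_ge (x i) R with h | h
    · exact ⟨true, by simpa [A] using h⟩
    · refine ⟨false, ?_⟩
      simp only [A, Bool.false_eq_true, if_false, Set.mem_ofPred_eq]
      linarith
  have hAface : ∀ (a : Bool) (i : Fin 3) (x y : E3), x ∈ A a i → y ∈ A a i → x i = -R → y i = R → False := by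
    intro a i x y hx hy h1 h2
    cases a
    · simp only [A, Bool.false_eq_true, if_false, Set.mem_ofPred_eq] at hx
      linarith
    · simp only [A, if_true, Set.mem_ofPred_eq] at hy
      linarith
  obtain ⟨𝒱, hV1, hV2, hV3⟩ := hB
    ((Finset.univ : Finset (Bool × Bool)).image (fun c => A c.1 0 ∩ A c.2 1)) (by
      intro U hU
      rw [Finset.mem_image] at hU
      obtain ⟨c, _, rfl⟩ := hU
      exact (hA _ _).inter (hA _ _)) (by
      intro x _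
      obtain ⟨a, ha⟩ := hAcov x 0
      obtain ⟨a', ha'⟩ := hAcov x 1
      refine ⟨A a 0 ∩ A a' 1, ?_, ha, ha'⟩
      rw [Finset.mem_coe, Finset.mem_image]
      exact ⟨(a, a'), Finset.mem_univ _, rfl⟩)
  have hch : ∀ V : Set E3, ∃ c : Bool × Bool, V ∈ 𝒱 → V ∩ B ⊆ A c.1 0 ∩ A c.2 1 := by
    intro V
    by_cases hV : V ∈ 𝒱
    · obtain ⟨_, U, hU, hVU⟩ := hV1 V hV
      rw [Finset.mem_image] at hU
      obtain ⟨c, _, rfl⟩ := hU
      exact ⟨c, fun _ => hVU⟩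
    · exact ⟨(true, true), fun h => absurd h hV⟩
  choose u hu using hch
  let G : Set E3 → Set T := fun V => κ R ⁻¹' (ext B V ∩ (A (u V).1 0 ∩ A (u V).2 1))
  let 𝒢 : Finset (Set T) := 𝒱.image G
  have hGopen : ∀ V, IsOpen (G V) := fun V =>
    ((isOpen_ext B V).inter ((hA _ _).inter (hA _ _))).preimage (κ_cont R)
  let K : Set T := Cube.Q \ ⋃ V ∈ 𝒱, G V
  have hK : IsCompact K := Cube.isCompact_Q.diff (isOpen_biUnion fun V _ => hGopen V)
  by_contra hcon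
  obtain ⟨W₀, W₁, hW₀, hW₁, hd, hKW, h0, h1⟩ := Cube.exists_sep K {p : T | p.2.2 = 0} {p : T | p.2.2 = 1}
    hK (isClosed_eq (by fun_prop) continuous_const) (isClosed_eq (by fun_prop) continuous_const) (by
      intro C hCK hCc hCp p hp q hq hp0 hq1
      apply hcon
      refine ⟨κ R '' C, hCc.image (κ_cont R), hCp.image _ (κ_cont R).continuousOn, ?_,
        ⟨κ R p, ⟨p, hp, rfl⟩, ?_⟩, ⟨κ R q, ⟨q, hq, rfl⟩, ?_⟩⟩
      · rintro _ ⟨z, hz, rfl⟩ hzB
        have hzK := hCK hz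
        apply hzK.2
        obtain ⟨V, hV, hzV⟩ := hV2 hzB
        rw [Set.mem_iUnion₂]
        exact ⟨V, hV, mem_ext (hV1 V hV).1 hzB hzV, hu V hV ⟨hzV, hzB⟩⟩
      · rw [κ2, hp0]; ring
      · rw [κ2, hq1]; ring)
  refine Cube.cube_lemma 𝒢 W₀ W₁ ?_ hW₀ hW₁ hd ?_ ?_ ?_ ?_ ?_ ?_
  · intro V hV
    rw [Finset.mem_image] at hV
    obtain ⟨V', _, rfl⟩ := hV
    exact hGopen V'
  · intro p hp
    by_cases hpK : p ∈ K
    · rcases hKW hpK with h | h
      · exact Or.inl h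
      · exact Or.inr (Or.inl h)
    · right; right
      have : p ∈ ⋃ V ∈ 𝒱, G V := by
        by_contra h
        exact hpK ⟨hp, h⟩
      rw [Set.mem_iUnion₂] at this
      obtain ⟨V, hV, hpV⟩ := this
      exact ⟨G V, Finset.mem_image_of_mem _ hV, hpV⟩
  · intro p W1' hW1' W2' hW2' W3' hW3' hp1 hp2 hp3
    rw [Finset.mem_image] at hW1' hW2' hW3'
    obtain ⟨V1, hV1', rfl⟩ := hW1'
    obtain ⟨V2, hV2', rfl⟩ := hW2'
    obtain ⟨V3, hV3', rfl⟩ := hW3'
    by_contra hne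
    push Not at hne
    obtain ⟨n1, n2, n3⟩ := hne
    have m1 : V1 ≠ V2 := fun h => n1 (by rw [h])
    have m2 : V1 ≠ V3 := fun h => n2 (by rw [h])
    have m3 : V2 ≠ V3 := fun h => n3 (by rw [h])
    exact ext_triple (hV3 V1 hV1' V2 hV2' V3 hV3' m1 m2 m3) hp1.1 hp2.1 hp3.1
  · intro W hW p _ q _ hpW hqW hp0 hq1
    rw [Finset.mem_image] at hW
    obtain ⟨V, _, rfl⟩ := hW
    refine hAface (u V).1 0 _ _ hpW.2.1 hqW.2.1 ?_ ?_
    · rw [κ0, hp0]; ring
    · rw [κ0, hq1]; ring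
  · intro W hW p _ q _ hpW hqW hp0 hq1
    rw [Finset.mem_image] at hW
    obtain ⟨V, _, rfl⟩ := hW
    refine hAface (u V).2 1 _ _ hpW.2.2 hqW.2.2 ?_ ?_
    · rw [κ1, hp0]; ring
    · rw [κ1, hq1]; ring
  · intro p _ hp
    exact h0 p hp
  · intro p _ hp
    exact h1 p hp

end Pool.Agent.Helper648.Maz
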